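import Pool.Agent.U356.FA.Dat

/-!
# Orientable fillings of the circle: the tests 12 to 23
-/

set_option autoImplicit false
set_option maxRecDepth 1000000

namespace Pool.Agent.U356.FA.K1

open Pool.Agent.U356.FA Pool.Agent.U356.FA.Dat

theorem t12 : dt.chkJ X 48 wz 12 = true := by decide +kernel

theorem t13 : dt.chkJ X 48 wz 13 = true := by decide +kernel

theorem t14 : dt.chkJ X 48 wz 14 = true := by decide +kernel

theorem t15 : dt.chkJ X 48 wz 15 = true := by decide +kernel

theorem t16 : dt.chkJ X 48 wz 16 = true := by decide +kernel

theorem t17 : dt.chkJ X 48 wz 17 = true := by decide +kernel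

theorem t18 : dt.chkJ X 48 wz 18 = true := by decide +kernel

theorem t19 : dt.chkJ X 48 wz 19 = true := by decide +kernel

theorem t20 : dt.chkJ X 48 wz 20 = true := by decide +kernel

theorem t21 : dt.chkJ X 48 wz 21 = true := by decide +kernel

theorem t22 : dt.chkJ X 48 wz 22 = true := by decide +kernel

theorem t23 : dt.chkJ X 48 wz 23 = true := by decide +kernel

theorem all (J : ℕ) (h1 : 12 ≤ J) (h2 : J < 24) : dt.chkJ X 48 wz J = true := by
  interval_cases J
  · exact t12
  · exact t13
  · exact t14
  · exact t15
  · exact t16
  · exact t17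
  · exact t18
  · exact t19
  · exact t20
  · exact t21
  · exact t22
  · exact t23

end Pool.Agent.U356.FA.K1
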