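import Pool.Agent.U356.FA.Dat

/-!
# Orientable fillings of the circle: the tests 120 to 131
-/

set_option autoImplicit false
set_option maxRecDepth 1000000

namespace Pool.Agent.U356.FA.K10

open Pool.Agent.U356.FA Pool.Agent.U356.FA.Dat

theorem t120 : dt.chkJ X 48 wz 120 = true := by decide +kernel

theorem t121 : dt.chkJ X 48 wz 121 = true := by decide +kernel

theorem t122 : dt.chkJ X 48 wz 122 = true := by decide +kernel

theorem t123 : dt.chkJ X 48 wz 123 = true := by decide +kernel

theorem t124 : dt.chkJ X 48 wz 124 = true := by decide +kernel

theorem t125 : dt.chkJ X 48 wz 125 = true := by decide +kernel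

theorem t126 : dt.chkJ X 48 wz 126 = true := by decide +kernel

theorem t127 : dt.chkJ X 48 wz 127 = true := by decide +kernel

theorem t128 : dt.chkJ X 48 wz 128 = true := by decide +kernel

theorem t129 : dt.chkJ X 48 wz 129 = true := by decide +kernel

theorem t130 : dt.chkJ X 48 wz 130 = true := by decide +kernel

theorem t131 : dt.chkJ X 48 wz 131 = true := by decide +kernel

theorem all (J : ℕ) (h1 : 120 ≤ J) (h2 : J < 132) : dt.chkJ X 48 wz J = true := by
  interval_cases J
  · exact t120
  · exact t121
  · exact t122
  · exact t123
  · exact t124
  · exact t125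
  · exact t126
  · exact t127
  · exact t128
  · exact t129
  · exact t130
  · exact t131

end Pool.Agent.U356.FA.K10
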