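import Pool.Agent.U356.FA.Dat

/-!
# Orientable fillings of the circle: the tests 132 to 143
-/

set_option autoImplicit false
set_option maxRecDepth 1000000

namespace Pool.Agent.U356.FA.K11

open Pool.Agent.U356.FA Pool.Agent.U356.FA.Dat

theorem t132 : dt.chkJ X 48 wz 132 = true := by decide +kernel

theorem t133 : dt.chkJ X 48 wz 133 = true := by decide +kernel

theorem t134 : dt.chkJ X 48 wz 134 = true := by decide +kernel

theorem t135 : dt.chkJ X 48 wz 135 = true := by decide +kernel

theorem t136 : dt.chkJ X 48 wz 136 = true := by decide +kernel

theorem t137 : dt.chkJ X 48 wz 137 = true := by decide +kernel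

theorem t138 : dt.chkJ X 48 wz 138 = true := by decide +kernel

theorem t139 : dt.chkJ X 48 wz 139 = true := by decide +kernel

theorem t140 : dt.chkJ X 48 wz 140 = true := by decide +kernel

theorem t141 : dt.chkJ X 48 wz 141 = true := by decide +kernel

theorem t142 : dt.chkJ X 48 wz 142 = true := by decide +kernel

theorem t143 : dt.chkJ X 48 wz 143 = true := by decide +kernel

theorem all (J : ℕ) (h1 : 132 ≤ J) (h2 : J < 144) : dt.chkJ X 48 wz J = true := by
  interval_cases J
  · exact t132
  · exact t133
  · exact t134
  · exact t135
  · exact t136
  · exact t137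
  · exact t138
  · exact t139
  · exact t140
  · exact t141
  · exact t142
  · exact t143

end Pool.Agent.U356.FA.K11
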