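import Pool.Agent.U356.FA.Dat

/-!
# Orientable fillings of the circle: the tests 144 to 155
-/

set_option autoImplicit false
set_option maxRecDepth 1000000

namespace Pool.Agent.U356.FA.K12

open Pool.Agent.U356.FA Pool.Agent.U356.FA.Dat

theorem t144 : dt.chkJ X 48 wz 144 = true := by decide +kernel

theorem t145 : dt.chkJ X 48 wz 145 = true := by decide +kernel

theorem t146 : dt.chkJ X 48 wz 146 = true := by decide +kernel

theorem t147 : dt.chkJ X 48 wz 147 = true := by decide +kernel

theorem t148 : dt.chkJ X 48 wz 148 = true := by decide +kernel

theorem t149 : dt.chkJ X 48 wz 149 = true := by decide +kernel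

theorem t150 : dt.chkJ X 48 wz 150 = true := by decide +kernel

theorem t151 : dt.chkJ X 48 wz 151 = true := by decide +kernel

theorem t152 : dt.chkJ X 48 wz 152 = true := by decide +kernel

theorem t153 : dt.chkJ X 48 wz 153 = true := by decide +kernel

theorem t154 : dt.chkJ X 48 wz 154 = true := by decide +kernel

theorem t155 : dt.chkJ X 48 wz 155 = true := by decide +kernel

theorem all (J : ℕ) (h1 : 144 ≤ J) (h2 : J < 156) : dt.chkJ X 48 wz J = true := by
  interval_cases J
  · exact t144
  · exact t145
  · exact t146
  · exact t147
  · exact t148
  · exact t149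
  · exact t150
  · exact t151
  · exact t152
  · exact t153
  · exact t154
  · exact t155

end Pool.Agent.U356.FA.K12
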