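import Pool.Agent.U356.FA.Dat

/-!
# Orientable fillings of the circle: the tests 156 to 167
-/

set_option autoImplicit false
set_option maxRecDepth 1000000

namespace Pool.Agent.U356.FA.K13

open Pool.Agent.U356.FA Pool.Agent.U356.FA.Dat

theorem t156 : dt.chkJ X 48 wz 156 = true := by decide +kernel

theorem t157 : dt.chkJ X 48 wz 157 = true := by decide +kernel

theorem t158 : dt.chkJ X 48 wz 158 = true := by decide +kernel

theorem t159 : dt.chkJ X 48 wz 159 = true := by decide +kernel

theorem t160 : dt.chkJ X 48 wz 160 = true := by decide +kernel

theorem t161 : dt.chkJ X 48 wz 161 = true := by decide +kernel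

theorem t162 : dt.chkJ X 48 wz 162 = true := by decide +kernel

theorem t163 : dt.chkJ X 48 wz 163 = true := by decide +kernel

theorem t164 : dt.chkJ X 48 wz 164 = true := by decide +kernel

theorem t165 : dt.chkJ X 48 wz 165 = true := by decide +kernel

theorem t166 : dt.chkJ X 48 wz 166 = true := by decide +kernel

theorem t167 : dt.chkJ X 48 wz 167 = true := by decide +kernel

theorem all (J : ℕ) (h1 : 156 ≤ J) (h2 : J < 168) : dt.chkJ X 48 wz J = true := by
  interval_cases J
  · exact t156
  · exact t157
  · exact t158
  · exact t159
  · exact t160
  · exact t161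
  · exact t162
  · exact t163
  · exact t164
  · exact t165
  · exact t166
  · exact t167

end Pool.Agent.U356.FA.K13
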