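import Pool.Agent.U356.FA.Dat

/-!
# Orientable fillings of the circle: the tests 168 to 179
-/

set_option autoImplicit false
set_option maxRecDepth 1000000

namespace Pool.Agent.U356.FA.K14

open Pool.Agent.U356.FA Pool.Agent.U356.FA.Dat

theorem t168 : dt.chkJ X 48 wz 168 = true := by decide +kernel

theorem t169 : dt.chkJ X 48 wz 169 = true := by decide +kernel

theorem t170 : dt.chkJ X 48 wz 170 = true := by decide +kernel

theorem t171 : dt.chkJ X 48 wz 171 = true := by decide +kernel

theorem t172 : dt.chkJ X 48 wz 172 = true := by decide +kernel

theorem t173 : dt.chkJ X 48 wz 173 = true := by decide +kernel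

theorem t174 : dt.chkJ X 48 wz 174 = true := by decide +kernel

theorem t175 : dt.chkJ X 48 wz 175 = true := by decide +kernel

theorem t176 : dt.chkJ X 48 wz 176 = true := by decide +kernel

theorem t177 : dt.chkJ X 48 wz 177 = true := by decide +kernel

theorem t178 : dt.chkJ X 48 wz 178 = true := by decide +kernel

theorem t179 : dt.chkJ X 48 wz 179 = true := by decide +kernel

theorem all (J : ℕ) (h1 : 168 ≤ J) (h2 : J < 180) : dt.chkJ X 48 wz J = true := by
  interval_cases J
  · exact t168
  · exact t169
  · exact t170
  · exact t171
  · exact t172
  · exact t173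
  · exact t174
  · exact t175
  · exact t176
  · exact t177
  · exact t178
  · exact t179

end Pool.Agent.U356.FA.K14
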