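import Pool.Agent.U356.FA.Dat

/-!
# Orientable fillings of the circle: the tests 180 to 191
-/

set_option autoImplicit false
set_option maxRecDepth 1000000

namespace Pool.Agent.U356.FA.K15

open Pool.Agent.U356.FA Pool.Agent.U356.FA.Dat

theorem t180 : dt.chkJ X 48 wz 180 = true := by decide +kernel

theorem t181 : dt.chkJ X 48 wz 181 = true := by decide +kernel

theorem t182 : dt.chkJ X 48 wz 182 = true := by decide +kernel

theorem t183 : dt.chkJ X 48 wz 183 = true := by decide +kernel

theorem t184 : dt.chkJ X 48 wz 184 = true := by decide +kernel

theorem t185 : dt.chkJ X 48 wz 185 = true := by decide +kernel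

theorem t186 : dt.chkJ X 48 wz 186 = true := by decide +kernel

theorem t187 : dt.chkJ X 48 wz 187 = true := by decide +kernel

theorem t188 : dt.chkJ X 48 wz 188 = true := by decide +kernel

theorem t189 : dt.chkJ X 48 wz 189 = true := by decide +kernel

theorem t190 : dt.chkJ X 48 wz 190 = true := by decide +kernel

theorem t191 : dt.chkJ X 48 wz 191 = true := by decide +kernel

theorem all (J : ℕ) (h1 : 180 ≤ J) (h2 : J < 192) : dt.chkJ X 48 wz J = true := by
  interval_cases J
  · exact t180
  · exact t181
  · exact t182
  · exact t183
  · exact t184
  · exact t185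
  · exact t186
  · exact t187
  · exact t188
  · exact t189
  · exact t190
  · exact t191

end Pool.Agent.U356.FA.K15
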