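import Pool.Agent.U356.FA.Dat

/-!
# Orientable fillings of the circle: the tests 192 to 203
-/

set_option autoImplicit false
set_option maxRecDepth 1000000

namespace Pool.Agent.U356.FA.K16

open Pool.Agent.U356.FA Pool.Agent.U356.FA.Dat

theorem t192 : dt.chkJ X 48 wz 192 = true := by decide +kernel

theorem t193 : dt.chkJ X 48 wz 193 = true := by decide +kernel

theorem t194 : dt.chkJ X 48 wz 194 = true := by decide +kernel

theorem t195 : dt.chkJ X 48 wz 195 = true := by decide +kernel

theorem t196 : dt.chkJ X 48 wz 196 = true := by decide +kernel

theorem t197 : dt.chkJ X 48 wz 197 = true := by decide +kernel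

theorem t198 : dt.chkJ X 48 wz 198 = true := by decide +kernel

theorem t199 : dt.chkJ X 48 wz 199 = true := by decide +kernel

theorem t200 : dt.chkJ X 48 wz 200 = true := by decide +kernel

theorem t201 : dt.chkJ X 48 wz 201 = true := by decide +kernel

theorem t202 : dt.chkJ X 48 wz 202 = true := by decide +kernel

theorem t203 : dt.chkJ X 48 wz 203 = true := by decide +kernel

theorem all (J : ℕ) (h1 : 192 ≤ J) (h2 : J < 204) : dt.chkJ X 48 wz J = true := by
  interval_cases J
  · exact t192
  · exact t193
  · exact t194
  · exact t195
  · exact t196
  · exact t197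
  · exact t198
  · exact t199
  · exact t200
  · exact t201
  · exact t202
  · exact t203

end Pool.Agent.U356.FA.K16
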