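import Pool.Agent.U356.FA.Dat

/-!
# Orientable fillings of the circle: the tests 204 to 215
-/

set_option autoImplicit false
set_option maxRecDepth 1000000

namespace Pool.Agent.U356.FA.K17

open Pool.Agent.U356.FA Pool.Agent.U356.FA.Dat

theorem t204 : dt.chkJ X 48 wz 204 = true := by decide +kernel

theorem t205 : dt.chkJ X 48 wz 205 = true := by decide +kernel

theorem t206 : dt.chkJ X 48 wz 206 = true := by decide +kernel

theorem t207 : dt.chkJ X 48 wz 207 = true := by decide +kernel

theorem t208 : dt.chkJ X 48 wz 208 = true := by decide +kernel

theorem t209 : dt.chkJ X 48 wz 209 = true := by decide +kernel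

theorem t210 : dt.chkJ X 48 wz 210 = true := by decide +kernel

theorem t211 : dt.chkJ X 48 wz 211 = true := by decide +kernel

theorem t212 : dt.chkJ X 48 wz 212 = true := by decide +kernel

theorem t213 : dt.chkJ X 48 wz 213 = true := by decide +kernel

theorem t214 : dt.chkJ X 48 wz 214 = true := by decide +kernel

theorem t215 : dt.chkJ X 48 wz 215 = true := by decide +kernel

theorem all (J : ℕ) (h1 : 204 ≤ J) (h2 : J < 216) : dt.chkJ X 48 wz J = true := by
  interval_cases J
  · exact t204
  · exact t205
  · exact t206
  · exact t207
  · exact t208
  · exact t209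
  · exact t210
  · exact t211
  · exact t212
  · exact t213
  · exact t214
  · exact t215

end Pool.Agent.U356.FA.K17
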