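import Pool.Agent.U356.FA.Dat

/-!
# Orientable fillings of the circle: the tests 228 to 239
-/

set_option autoImplicit false
set_option maxRecDepth 1000000

namespace Pool.Agent.U356.FA.K19

open Pool.Agent.U356.FA Pool.Agent.U356.FA.Dat

theorem t228 : dt.chkJ X 48 wz 228 = true := by decide +kernel

theorem t229 : dt.chkJ X 48 wz 229 = true := by decide +kernel

theorem t230 : dt.chkJ X 48 wz 230 = true := by decide +kernel

theorem t231 : dt.chkJ X 48 wz 231 = true := by decide +kernel

theorem t232 : dt.chkJ X 48 wz 232 = true := by decide +kernel

theorem t233 : dt.chkJ X 48 wz 233 = true := by decide +kernel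

theorem t234 : dt.chkJ X 48 wz 234 = true := by decide +kernel

theorem t235 : dt.chkJ X 48 wz 235 = true := by decide +kernel

theorem t236 : dt.chkJ X 48 wz 236 = true := by decide +kernel

theorem t237 : dt.chkJ X 48 wz 237 = true := by decide +kernel

theorem t238 : dt.chkJ X 48 wz 238 = true := by decide +kernel

theorem t239 : dt.chkJ X 48 wz 239 = true := by decide +kernel

theorem all (J : ℕ) (h1 : 228 ≤ J) (h2 : J < 240) : dt.chkJ X 48 wz J = true := by
  interval_cases J
  · exact t228
  · exact t229
  · exact t230
  · exact t231
  · exact t232
  · exact t233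
  · exact t234
  · exact t235
  · exact t236
  · exact t237
  · exact t238
  · exact t239

end Pool.Agent.U356.FA.K19
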