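import Pool.Agent.U356.FA.Dat

/-!
# Orientable fillings of the circle: the tests 24 to 35
-/

set_option autoImplicit false
set_option maxRecDepth 1000000

namespace Pool.Agent.U356.FA.K2

open Pool.Agent.U356.FA Pool.Agent.U356.FA.Dat

theorem t24 : dt.chkJ X 48 wz 24 = true := by decide +kernel

theorem t25 : dt.chkJ X 48 wz 25 = true := by decide +kernel

theorem t26 : dt.chkJ X 48 wz 26 = true := by decide +kernel

theorem t27 : dt.chkJ X 48 wz 27 = true := by decide +kernel

theorem t28 : dt.chkJ X 48 wz 28 = true := by decide +kernel

theorem t29 : dt.chkJ X 48 wz 29 = true := by decide +kernel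

theorem t30 : dt.chkJ X 48 wz 30 = true := by decide +kernel

theorem t31 : dt.chkJ X 48 wz 31 = true := by decide +kernel

theorem t32 : dt.chkJ X 48 wz 32 = true := by decide +kernel

theorem t33 : dt.chkJ X 48 wz 33 = true := by decide +kernel

theorem t34 : dt.chkJ X 48 wz 34 = true := by decide +kernel

theorem t35 : dt.chkJ X 48 wz 35 = true := by decide +kernel

theorem all (J : ℕ) (h1 : 24 ≤ J) (h2 : J < 36) : dt.chkJ X 48 wz J = true := by
  interval_cases J
  · exact t24
  · exact t25
  · exact t26
  · exact t27
  · exact t28
  · exact t29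
  · exact t30
  · exact t31
  · exact t32
  · exact t33
  · exact t34
  · exact t35

end Pool.Agent.U356.FA.K2
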