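import Pool.Agent.U356.FA.Dat

/-!
# Orientable fillings of the circle: the tests 240 to 251
-/

set_option autoImplicit false
set_option maxRecDepth 1000000

namespace Pool.Agent.U356.FA.K20

open Pool.Agent.U356.FA Pool.Agent.U356.FA.Dat

theorem t240 : dt.chkJ X 48 wz 240 = true := by decide +kernel

theorem t241 : dt.chkJ X 48 wz 241 = true := by decide +kernel

theorem t242 : dt.chkJ X 48 wz 242 = true := by decide +kernel

theorem t243 : dt.chkJ X 48 wz 243 = true := by decide +kernel

theorem t244 : dt.chkJ X 48 wz 244 = true := by decide +kernel

theorem t245 : dt.chkJ X 48 wz 245 = true := by decide +kernel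

theorem t246 : dt.chkJ X 48 wz 246 = true := by decide +kernel

theorem t247 : dt.chkJ X 48 wz 247 = true := by decide +kernel

theorem t248 : dt.chkJ X 48 wz 248 = true := by decide +kernel

theorem t249 : dt.chkJ X 48 wz 249 = true := by decide +kernel

theorem t250 : dt.chkJ X 48 wz 250 = true := by decide +kernel

theorem t251 : dt.chkJ X 48 wz 251 = true := by decide +kernel

theorem all (J : ℕ) (h1 : 240 ≤ J) (h2 : J < 252) : dt.chkJ X 48 wz J = true := by
  interval_cases J
  · exact t240
  · exact t241
  · exact t242
  · exact t243
  · exact t244
  · exact t245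
  · exact t246
  · exact t247
  · exact t248
  · exact t249
  · exact t250
  · exact t251

end Pool.Agent.U356.FA.K20
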