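import Pool.Agent.U356.FA.Dat

/-!
# Orientable fillings of the circle: the tests 252 to 263
-/

set_option autoImplicit false
set_option maxRecDepth 1000000

namespace Pool.Agent.U356.FA.K21

open Pool.Agent.U356.FA Pool.Agent.U356.FA.Dat

theorem t252 : dt.chkJ X 48 wz 252 = true := by decide +kernel

theorem t253 : dt.chkJ X 48 wz 253 = true := by decide +kernel

theorem t254 : dt.chkJ X 48 wz 254 = true := by decide +kernel

theorem t255 : dt.chkJ X 48 wz 255 = true := by decide +kernel

theorem t256 : dt.chkJ X 48 wz 256 = true := by decide +kernel

theorem t257 : dt.chkJ X 48 wz 257 = true := by decide +kernel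

theorem t258 : dt.chkJ X 48 wz 258 = true := by decide +kernel

theorem t259 : dt.chkJ X 48 wz 259 = true := by decide +kernel

theorem t260 : dt.chkJ X 48 wz 260 = true := by decide +kernel

theorem t261 : dt.chkJ X 48 wz 261 = true := by decide +kernel

theorem t262 : dt.chkJ X 48 wz 262 = true := by decide +kernel

theorem t263 : dt.chkJ X 48 wz 263 = true := by decide +kernel

theorem all (J : ℕ) (h1 : 252 ≤ J) (h2 : J < 264) : dt.chkJ X 48 wz J = true := by
  interval_cases J
  · exact t252
  · exact t253
  · exact t254
  · exact t255
  · exact t256
  · exact t257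
  · exact t258
  · exact t259
  · exact t260
  · exact t261
  · exact t262
  · exact t263

end Pool.Agent.U356.FA.K21
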