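import Pool.Agent.U356.FA.Dat

/-!
# Orientable fillings of the circle: the tests 36 to 47
-/

set_option autoImplicit false
set_option maxRecDepth 1000000

namespace Pool.Agent.U356.FA.K3

open Pool.Agent.U356.FA Pool.Agent.U356.FA.Dat

theorem t36 : dt.chkJ X 48 wz 36 = true := by decide +kernel

theorem t37 : dt.chkJ X 48 wz 37 = true := by decide +kernel

theorem t38 : dt.chkJ X 48 wz 38 = true := by decide +kernel

theorem t39 : dt.chkJ X 48 wz 39 = true := by decide +kernel

theorem t40 : dt.chkJ X 48 wz 40 = true := by decide +kernel

theorem t41 : dt.chkJ X 48 wz 41 = true := by decide +kernel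

theorem t42 : dt.chkJ X 48 wz 42 = true := by decide +kernel

theorem t43 : dt.chkJ X 48 wz 43 = true := by decide +kernel

theorem t44 : dt.chkJ X 48 wz 44 = true := by decide +kernel

theorem t45 : dt.chkJ X 48 wz 45 = true := by decide +kernel

theorem t46 : dt.chkJ X 48 wz 46 = true := by decide +kernel

theorem t47 : dt.chkJ X 48 wz 47 = true := by decide +kernel

theorem all (J : ℕ) (h1 : 36 ≤ J) (h2 : J < 48) : dt.chkJ X 48 wz J = true := by
  interval_cases J
  · exact t36
  · exact t37
  · exact t38
  · exact t39
  · exact t40
  · exact t41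
  · exact t42
  · exact t43
  · exact t44
  · exact t45
  · exact t46
  · exact t47

end Pool.Agent.U356.FA.K3
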