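import Pool.Agent.U356.FA.Dat

/-!
# Orientable fillings of the circle: the tests 48 to 59
-/

set_option autoImplicit false
set_option maxRecDepth 1000000

namespace Pool.Agent.U356.FA.K4

open Pool.Agent.U356.FA Pool.Agent.U356.FA.Dat

theorem t48 : dt.chkJ X 48 wz 48 = true := by decide +kernel

theorem t49 : dt.chkJ X 48 wz 49 = true := by decide +kernel

theorem t50 : dt.chkJ X 48 wz 50 = true := by decide +kernel

theorem t51 : dt.chkJ X 48 wz 51 = true := by decide +kernel

theorem t52 : dt.chkJ X 48 wz 52 = true := by decide +kernel

theorem t53 : dt.chkJ X 48 wz 53 = true := by decide +kernel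

theorem t54 : dt.chkJ X 48 wz 54 = true := by decide +kernel

theorem t55 : dt.chkJ X 48 wz 55 = true := by decide +kernel

theorem t56 : dt.chkJ X 48 wz 56 = true := by decide +kernel

theorem t57 : dt.chkJ X 48 wz 57 = true := by decide +kernel

theorem t58 : dt.chkJ X 48 wz 58 = true := by decide +kernel

theorem t59 : dt.chkJ X 48 wz 59 = true := by decide +kernel

theorem all (J : ℕ) (h1 : 48 ≤ J) (h2 : J < 60) : dt.chkJ X 48 wz J = true := by
  interval_cases J
  · exact t48
  · exact t49
  · exact t50
  · exact t51
  · exact t52
  · exact t53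
  · exact t54
  · exact t55
  · exact t56
  · exact t57
  · exact t58
  · exact t59

end Pool.Agent.U356.FA.K4
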