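import Pool.Agent.U356.FA.Dat

/-!
# Orientable fillings of the circle: the tests 60 to 71
-/

set_option autoImplicit false
set_option maxRecDepth 1000000

namespace Pool.Agent.U356.FA.K5

open Pool.Agent.U356.FA Pool.Agent.U356.FA.Dat

theorem t60 : dt.chkJ X 48 wz 60 = true := by decide +kernel

theorem t61 : dt.chkJ X 48 wz 61 = true := by decide +kernel

theorem t62 : dt.chkJ X 48 wz 62 = true := by decide +kernel

theorem t63 : dt.chkJ X 48 wz 63 = true := by decide +kernel

theorem t64 : dt.chkJ X 48 wz 64 = true := by decide +kernel

theorem t65 : dt.chkJ X 48 wz 65 = true := by decide +kernel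

theorem t66 : dt.chkJ X 48 wz 66 = true := by decide +kernel

theorem t67 : dt.chkJ X 48 wz 67 = true := by decide +kernel

theorem t68 : dt.chkJ X 48 wz 68 = true := by decide +kernel

theorem t69 : dt.chkJ X 48 wz 69 = true := by decide +kernel

theorem t70 : dt.chkJ X 48 wz 70 = true := by decide +kernel

theorem t71 : dt.chkJ X 48 wz 71 = true := by decide +kernel

theorem all (J : ℕ) (h1 : 60 ≤ J) (h2 : J < 72) : dt.chkJ X 48 wz J = true := by
  interval_cases J
  · exact t60
  · exact t61
  · exact t62
  · exact t63
  · exact t64
  · exact t65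
  · exact t66
  · exact t67
  · exact t68
  · exact t69
  · exact t70
  · exact t71

end Pool.Agent.U356.FA.K5
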