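import Pool.Agent.U356.FA.Dat

/-!
# Orientable fillings of the circle: the tests 72 to 83
-/

set_option autoImplicit false
set_option maxRecDepth 1000000

namespace Pool.Agent.U356.FA.K6

open Pool.Agent.U356.FA Pool.Agent.U356.FA.Dat

theorem t72 : dt.chkJ X 48 wz 72 = true := by decide +kernel

theorem t73 : dt.chkJ X 48 wz 73 = true := by decide +kernel

theorem t74 : dt.chkJ X 48 wz 74 = true := by decide +kernel

theorem t75 : dt.chkJ X 48 wz 75 = true := by decide +kernel

theorem t76 : dt.chkJ X 48 wz 76 = true := by decide +kernel

theorem t77 : dt.chkJ X 48 wz 77 = true := by decide +kernel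

theorem t78 : dt.chkJ X 48 wz 78 = true := by decide +kernel

theorem t79 : dt.chkJ X 48 wz 79 = true := by decide +kernel

theorem t80 : dt.chkJ X 48 wz 80 = true := by decide +kernel

theorem t81 : dt.chkJ X 48 wz 81 = true := by decide +kernel

theorem t82 : dt.chkJ X 48 wz 82 = true := by decide +kernel

theorem t83 : dt.chkJ X 48 wz 83 = true := by decide +kernel

theorem all (J : ℕ) (h1 : 72 ≤ J) (h2 : J < 84) : dt.chkJ X 48 wz J = true := by
  interval_cases J
  · exact t72
  · exact t73
  · exact t74
  · exact t75
  · exact t76
  · exact t77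
  · exact t78
  · exact t79
  · exact t80
  · exact t81
  · exact t82
  · exact t83

end Pool.Agent.U356.FA.K6
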