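import Pool.Agent.U356.FA.Dat

/-!
# Orientable fillings of the circle: the tests 84 to 95
-/

set_option autoImplicit false
set_option maxRecDepth 1000000

namespace Pool.Agent.U356.FA.K7

open Pool.Agent.U356.FA Pool.Agent.U356.FA.Dat

theorem t84 : dt.chkJ X 48 wz 84 = true := by decide +kernel

theorem t85 : dt.chkJ X 48 wz 85 = true := by decide +kernel

theorem t86 : dt.chkJ X 48 wz 86 = true := by decide +kernel

theorem t87 : dt.chkJ X 48 wz 87 = true := by decide +kernel

theorem t88 : dt.chkJ X 48 wz 88 = true := by decide +kernel

theorem t89 : dt.chkJ X 48 wz 89 = true := by decide +kernel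

theorem t90 : dt.chkJ X 48 wz 90 = true := by decide +kernel

theorem t91 : dt.chkJ X 48 wz 91 = true := by decide +kernel

theorem t92 : dt.chkJ X 48 wz 92 = true := by decide +kernel

theorem t93 : dt.chkJ X 48 wz 93 = true := by decide +kernel

theorem t94 : dt.chkJ X 48 wz 94 = true := by decide +kernel

theorem t95 : dt.chkJ X 48 wz 95 = true := by decide +kernel

theorem all (J : ℕ) (h1 : 84 ≤ J) (h2 : J < 96) : dt.chkJ X 48 wz J = true := by
  interval_cases J
  · exact t84
  · exact t85
  · exact t86
  · exact t87
  · exact t88
  · exact t89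
  · exact t90
  · exact t91
  · exact t92
  · exact t93
  · exact t94
  · exact t95

end Pool.Agent.U356.FA.K7
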