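import Pool.Agent.U356.FA.Dat

/-!
# Orientable fillings of the circle: the tests 96 to 107
-/

set_option autoImplicit false
set_option maxRecDepth 1000000

namespace Pool.Agent.U356.FA.K8

open Pool.Agent.U356.FA Pool.Agent.U356.FA.Dat

theorem t96 : dt.chkJ X 48 wz 96 = true := by decide +kernel

theorem t97 : dt.chkJ X 48 wz 97 = true := by decide +kernel

theorem t98 : dt.chkJ X 48 wz 98 = true := by decide +kernel

theorem t99 : dt.chkJ X 48 wz 99 = true := by decide +kernel

theorem t100 : dt.chkJ X 48 wz 100 = true := by decide +kernel

theorem t101 : dt.chkJ X 48 wz 101 = true := by decide +kernel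

theorem t102 : dt.chkJ X 48 wz 102 = true := by decide +kernel

theorem t103 : dt.chkJ X 48 wz 103 = true := by decide +kernel

theorem t104 : dt.chkJ X 48 wz 104 = true := by decide +kernel

theorem t105 : dt.chkJ X 48 wz 105 = true := by decide +kernel

theorem t106 : dt.chkJ X 48 wz 106 = true := by decide +kernel

theorem t107 : dt.chkJ X 48 wz 107 = true := by decide +kernel

theorem all (J : ℕ) (h1 : 96 ≤ J) (h2 : J < 108) : dt.chkJ X 48 wz J = true := by
  interval_cases J
  · exact t96
  · exact t97
  · exact t98
  · exact t99
  · exact t100
  · exact t101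
  · exact t102
  · exact t103
  · exact t104
  · exact t105
  · exact t106
  · exact t107

end Pool.Agent.U356.FA.K8
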