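import Pool.Agent.U356.FA.Dat

/-!
# Orientable fillings of the circle: the tests 108 to 119
-/

set_option autoImplicit false
set_option maxRecDepth 1000000

namespace Pool.Agent.U356.FA.K9

open Pool.Agent.U356.FA Pool.Agent.U356.FA.Dat

theorem t108 : dt.chkJ X 48 wz 108 = true := by decide +kernel

theorem t109 : dt.chkJ X 48 wz 109 = true := by decide +kernel

theorem t110 : dt.chkJ X 48 wz 110 = true := by decide +kernel

theorem t111 : dt.chkJ X 48 wz 111 = true := by decide +kernel

theorem t112 : dt.chkJ X 48 wz 112 = true := by decide +kernel

theorem t113 : dt.chkJ X 48 wz 113 = true := by decide +kernel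

theorem t114 : dt.chkJ X 48 wz 114 = true := by decide +kernel

theorem t115 : dt.chkJ X 48 wz 115 = true := by decide +kernel

theorem t116 : dt.chkJ X 48 wz 116 = true := by decide +kernel

theorem t117 : dt.chkJ X 48 wz 117 = true := by decide +kernel

theorem t118 : dt.chkJ X 48 wz 118 = true := by decide +kernel

theorem t119 : dt.chkJ X 48 wz 119 = true := by decide +kernel

theorem all (J : ℕ) (h1 : 108 ≤ J) (h2 : J < 120) : dt.chkJ X 48 wz J = true := by
  interval_cases J
  · exact t108
  · exact t109
  · exact t110
  · exact t111
  · exact t112
  · exact t113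
  · exact t114
  · exact t115
  · exact t116
  · exact t117
  · exact t118
  · exact t119

end Pool.Agent.U356.FA.K9
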