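import Pool.Agent.U356.FA.K0
import Pool.Agent.U356.FA.K1
import Pool.Agent.U356.FA.K2
import Pool.Agent.U356.FA.K3
import Pool.Agent.U356.FA.K4
import Pool.Agent.U356.FA.K5
import Pool.Agent.U356.FA.K6
import Pool.Agent.U356.FA.K7
import Pool.Agent.U356.FA.K8
import Pool.Agent.U356.FA.K9
import Pool.Agent.U356.FA.K10
import Pool.Agent.U356.FA.K11
import Pool.Agent.U356.FA.K12
import Pool.Agent.U356.FA.K13
import Pool.Agent.U356.FA.K14
import Pool.Agent.U356.FA.K15
import Pool.Agent.U356.FA.K16
import Pool.Agent.U356.FA.K17
import Pool.Agent.U356.FA.K18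
import Pool.Agent.U356.FA.K19
import Pool.Agent.U356.FA.K20
import Pool.Agent.U356.FA.K21

/-!
# Orientable fillings of the circle: all the tests
-/

set_option autoImplicit false

namespace Pool.Agent.U356.FA.All

open Pool.Agent.U356.FA Pool.Agent.U356.FA.Dat

theorem all (J : ℕ) (hJ : J < 264) : dt.chkJ X 48 wz J = true := by
  by_cases h0 : J < 12
  · exact K0.all J (Nat.zero_le _) h0
  by_cases h1 : J < 24
  · exact K1.all J (by omega) h1
  by_cases h2 : J < 36
  · exact K2.all J (by omega) h2
  by_cases h3 : J < 48
  · exact K3.all J (by omega) h3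
  by_cases h4 : J < 60
  · exact K4.all J (by omega) h4
  by_cases h5 : J < 72
  · exact K5.all J (by omega) h5
  by_cases h6 : J < 84
  · exact K6.all J (by omega) h6
  by_cases h7 : J < 96
  · exact K7.all J (by omega) h7
  by_cases h8 : J < 108
  · exact K8.all J (by omega) h8
  by_cases h9 : J < 120
  · exact K9.all J (by omega) h9
  by_cases h10 : J < 132
  · exact K10.all J (by omega) h10
  by_cases h11 : J < 144
  · exact K11.all J (by omega) h11
  by_cases h12 : J < 156
  · exact K12.all J (by omega) h12
  by_cases h13 : J < 168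
  · exact K13.all J (by omega) h13
  by_cases h14 : J < 180
  · exact K14.all J (by omega) h14
  by_cases h15 : J < 192
  · exact K15.all J (by omega) h15
  by_cases h16 : J < 204
  · exact K16.all J (by omega) h16
  by_cases h17 : J < 216
  · exact K17.all J (by omega) h17
  by_cases h18 : J < 228
  · exact K18.all J (by omega) h18
  by_cases h19 : J < 240
  · exact K19.all J (by omega) h19
  by_cases h20 : J < 252
  · exact K20.all J (by omega) h20
  exact K21.all J (by omega) hJ

end Pool.Agent.U356.FA.All
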