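import Pool.Agent.U356.FA.Dat
import Pool.Agent.N937.P1B_BND

/-!
# Orientable fillings of the circle: the integrals over the sectors
-/

set_option autoImplicit false
set_option maxRecDepth 1000000

open MeasureTheory Metric Set Filter Topology InnerProductGeometry

namespace Pool.Agent.U356.FA.Bnd

open Pool.Agent.N979.P1 Pool.Agent.U356.FA Pool.Agent.U356.FA.Dat Pool.Agent.N937.P1B_BND

/-- the slopes -/
noncomputable def q (i : ℕ) : ℚ := (nth dt.tz i : ℚ) / (cT : ℚ)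

/-- the lower slope of the sector -/
noncomputable def qa (l : ℕ) : ℚ := if l = 0 then 0 else q (l - 1)

/-- the inequalities for given bounds of the angle -/
def Ok (l : ℕ) (dlo dhi ds dk : ℚ) : Prop :=
  (nth X.cl l : ℚ) ≤ (cQ : ℚ) * ((dlo + ds) / 2) ∧ (cQ : ℚ) * ((dhi + ds) / 2) ≤ (nth X.ch l : ℚ) ∧
  (nth X.sl l : ℚ) ≤ (cQ : ℚ) * ((dlo - ds) / 2) ∧ (cQ : ℚ) * ((dhi - ds) / 2) ≤ (nth X.sh l : ℚ) ∧
  (nth X.ml l : ℚ) ≤ (cQ : ℚ) * (dk / 2) ∧ (cQ : ℚ) * (dk / 2) ≤ (nth X.mh l : ℚ)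

noncomputable instance (l : ℕ) (dlo dhi ds dk : ℚ) : Decidable (Ok l dlo dhi ds dk) := by
  unfold Ok; infer_instance

def sgf (x : ℚ) : ℚ := x / (1 + x ^ 2)
def kpf (x : ℚ) : ℚ := x ^ 2 / (1 + x ^ 2)

/-- sector below the slope `l` -/
def Mid (l : ℕ) : Prop :=
  0 ≤ qa l ∧ 0 ≤ q l ∧ 0 ≤ (q l - qa l) / (1 + qa l * q l) ∧
    Ok l (atn 14 ((q l - qa l) / (1 + qa l * q l))) (atn 15 ((q l - qa l) / (1 + qa l * q l)))
      (sgf (q l) - sgf (qa l)) (kpf (q l) - kpf (qa l))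

noncomputable instance (l : ℕ) : Decidable (Mid l) := by unfold Mid; infer_instance

def Las (l : ℕ) : Prop :=
  0 < qa l ∧ Ok l (atn 14 (qa l)⁻¹) (atn 15 (qa l)⁻¹) (0 - sgf (qa l)) (1 - kpf (qa l))

noncomputable instance (l : ℕ) : Decidable (Las l) := by unfold Las; infer_instance

theorem enc_of_ok (l : ℕ) (dlo dhi ds dk : ℚ) (h : Ok l dlo dhi ds dk) (D : ℝ)
    (h1 : (dlo : ℝ) ≤ D) (h2 : D ≤ (dhi : ℝ)) :
    ((nth X.cl l : ℝ) ≤ (cQ : ℝ) * ((D + (ds : ℝ)) / 2) ∧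
      (cQ : ℝ) * ((D + (ds : ℝ)) / 2) ≤ (nth X.ch l : ℝ)) ∧
    ((nth X.ml l : ℝ) ≤ (cQ : ℝ) * ((dk : ℝ) / 2) ∧
      (cQ : ℝ) * ((dk : ℝ) / 2) ≤ (nth X.mh l : ℝ)) ∧
    ((nth X.sl l : ℝ) ≤ (cQ : ℝ) * ((D - (ds : ℝ)) / 2) ∧
      (cQ : ℝ) * ((D - (ds : ℝ)) / 2) ≤ (nth X.sh l : ℝ)) := by
  obtain ⟨a1, a2, a3, a4, a5, a6⟩ := h
  have hQ : (0 : ℝ) ≤ (cQ : ℝ) := by norm_num [cQ]
  have b1 : (nth X.cl l : ℝ) ≤ (cQ : ℝ) * (((dlo : ℝ) + (ds : ℝ)) / 2) := by exact_mod_cast a1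
  have b2 : (cQ : ℝ) * (((dhi : ℝ) + (ds : ℝ)) / 2) ≤ (nth X.ch l : ℝ) := by exact_mod_cast a2
  have b3 : (nth X.sl l : ℝ) ≤ (cQ : ℝ) * (((dlo : ℝ) - (ds : ℝ)) / 2) := by exact_mod_cast a3
  have b4 : (cQ : ℝ) * (((dhi : ℝ) - (ds : ℝ)) / 2) ≤ (nth X.sh l : ℝ) := by exact_mod_cast a4
  have b5 : (nth X.ml l : ℝ) ≤ (cQ : ℝ) * ((dk : ℝ) / 2) := by exact_mod_cast a5
  have b6 : (cQ : ℝ) * ((dk : ℝ) / 2) ≤ (nth X.mh l : ℝ) := by exact_mod_cast a6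
  refine ⟨⟨b1.trans ?_, le_trans ?_ b2⟩, ⟨b5, b6⟩, ⟨b3.trans ?_, le_trans ?_ b4⟩⟩ <;>
    exact mul_le_mul_of_nonneg_left (by linarith) hQ

theorem mid_ok : ∀ l < 48, Mid l := by decide +kernel

theorem las_ok : Las 48 := by decide +kernel

theorem t_eq (i : Fin 48) : (dt.toQ 264 48).toDat.t i = ((q i.val : ℚ) : ℝ) := rfl

theorem encl : Encl (dt.toQ 264 48).toDat.t X := by
  have key : ∀ l : Fin (48 + 1), ∃ dlo dhi ds dk : ℚ, Ok l.val dlo dhi ds dk ∧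
      (dlo : ℝ) ≤ Dl (dt.toQ 264 48).toDat.t l ∧ Dl (dt.toQ 264 48).toDat.t l ≤ (dhi : ℝ) ∧
      (up3 (dt.toQ 264 48).toDat.t l).2.1 - (lo3 (dt.toQ 264 48).toDat.t l).2.1 = (ds : ℝ) ∧
      (up3 (dt.toQ 264 48).toDat.t l).2.2 - (lo3 (dt.toQ 264 48).toDat.t l).2.2 = (dk : ℝ) := by
    intro l
    have hlo : lo3 (dt.toQ 264 48).toDat.t l =
        (Real.arctan ((qa l.val : ℚ) : ℝ), ((sgf (qa l.val) : ℚ) : ℝ),
          ((kpf (qa l.val) : ℚ) : ℝ)) := by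
      unfold lo3 qa
      by_cases h : 0 < l.val
      · rw [dif_pos h, if_neg h.ne']
        simp only [t_eq, sgf, kpf]
        push_cast
        rfl
      · have h0 : l.val = 0 := Nat.eq_zero_of_not_pos h
        rw [dif_neg h, if_pos h0]
        simp [sgf, kpf]
    by_cases hl : l.val < 48
    · obtain ⟨c1, c2, c3, c4⟩ := mid_ok l.val hl
      have hup : up3 (dt.toQ 264 48).toDat.t l =
          (Real.arctan ((q l.val : ℚ) : ℝ), ((sgf (q l.val) : ℚ) : ℝ),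
            ((kpf (q l.val) : ℚ) : ℝ)) := by
        unfold up3
        rw [dif_pos hl]
        simp only [t_eq, sgf, kpf]
        push_cast
        rfl
      refine ⟨_, _, _, _, c4, ?_⟩
      have hD : Dl (dt.toQ 264 48).toDat.t l =
          Real.arctan ((((q l.val - qa l.val) / (1 + qa l.val * q l.val) : ℚ)) : ℝ) := by
        unfold Dl
        rw [hup, hlo]
        exact arctan_diff _ _ c1 c2
      have hb := bnd _ _ _ c3 le_rfl le_rfl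
      rw [hD, hup, hlo]
      refine ⟨hb.1, hb.2, ?_, ?_⟩ <;> push_cast <;> rfl
    · have h48 : l.val = 48 := by have := l.isLt; omega
      obtain ⟨c1, c2⟩ := las_ok
      rw [← h48] at c1 c2
      have hup : up3 (dt.toQ 264 48).toDat.t l = (Real.pi / 2, 0, 1) := by
        unfold up3
        rw [dif_neg hl]
      refine ⟨_, _, _, _, c2, ?_⟩
      have hp : (0 : ℝ) < ((qa l.val : ℚ) : ℝ) := by exact_mod_cast c1
      have hD : Dl (dt.toQ 264 48).toDat.t l = Real.arctan ((((qa l.val)⁻¹ : ℚ)) : ℝ) := by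
        unfold Dl
        rw [hup, hlo, Rat.cast_inv, Real.arctan_inv_of_pos hp]
      have hb := bnd _ _ _ (inv_nonneg.2 c1.le) le_rfl le_rfl
      rw [hD, hup, hlo]
      refine ⟨hb.1, hb.2, ?_, ?_⟩ <;> push_cast <;> rfl
  constructor
  · intro l
    obtain ⟨dlo, dhi, ds, dk, h1, h2, h3, h4, h5⟩ := key l
    have := (enc_of_ok l.val dlo dhi ds dk h1 _ h2 h3).1
    unfold Icc2
    rw [h4]
    exact this
  · intro l
    obtain ⟨dlo, dhi, ds, dk, h1, h2, h3, h4, h5⟩ := key l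
    have := (enc_of_ok l.val dlo dhi ds dk h1 _ h2 h3).2.1
    unfold Ics2
    rw [h5]
    exact this
  · intro l
    obtain ⟨dlo, dhi, ds, dk, h1, h2, h3, h4, h5⟩ := key l
    have := (enc_of_ok l.val dlo dhi ds dk h1 _ h2 h3).2.2
    unfold Iss2
    rw [h4]
    exact this

end Pool.Agent.U356.FA.Bnd
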