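import Pool.Agent.U356.FA.Gen

/-!
# Orientable fillings of the circle: the test with integers is sound
-/

set_option autoImplicit false

open MeasureTheory Metric Set Filter Topology InnerProductGeometry

namespace Pool.Agent.U356.FA

open Pool.Agent.H241R3.FV Pool.Agent.N526.CP Pool.Agent.N979.P1

/-- the test for given coefficients -/
def chk1 (X : Sect) (n : ℕ) (w a b a' b' : ℕ → ℤ) (sc sc' : ℤ) : Bool :=
  allN (fun l => decide (0 < w l)) n &&
  (decide (rs (fun l => (cW * cF * (nth X.ch l + nth X.sh l)) / (w l * cQ) + 1) n * (2 * cE) ≤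
    cF * cP) &&
  fin
    (dn (sm w (fun _ => 1) (fun _ => 0) (fun _ => 0) X.cl X.ch X.ml X.mh X.sl X.sh n) (cW * cQ))
    (up (sm w (fun _ => 1) (fun _ => 0) (fun _ => 0) X.ch X.cl X.mh X.ml X.sh X.sl n) (cW * cQ))
    (dn (sm w (fun l => -(b' l)) (fun l => a' l) (fun _ => 0) X.cl X.ch X.ml X.mh X.sl X.sh n)
      (cW * cQ * sc'))
    (up (sm w (fun l => -(b' l)) (fun l => a' l) (fun _ => 0) X.ch X.cl X.mh X.ml X.sh X.sl n)
      (cW * cQ * sc'))
    (dn (sm w (fun l => b' l * b' l) (fun l => -2 * (a' l * b' l)) (fun l => a' l * a' l)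
      X.cl X.ch X.ml X.mh X.sl X.sh n) (cW * cQ * (sc' * sc')))
    (up (sm w (fun l => b' l * b' l) (fun l => -2 * (a' l * b' l)) (fun l => a' l * a' l)
      X.ch X.cl X.mh X.ml X.sh X.sl n) (cW * cQ * (sc' * sc')))
    (dn (sm w (fun l => a l * a l) (fun l => 2 * (a l * b l)) (fun l => b l * b l)
      X.cl X.ch X.ml X.mh X.sl X.sh n) (cW * cQ * (sc * sc)))
    (up (sm w (fun l => a l * a l) (fun l => 2 * (a l * b l)) (fun l => b l * b l)
      X.ch X.cl X.mh X.ml X.sh X.sl n) (cW * cQ * (sc * sc)))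
    (dn (sm w (fun _ => 0) (fun l => -(a l)) (fun l => -(b l)) X.cl X.ch X.ml X.mh X.sl X.sh n)
      (cW * cQ * sc))
    (up (sm w (fun _ => 0) (fun l => -(a l)) (fun l => -(b l)) X.ch X.cl X.mh X.ml X.sh X.sl n)
      (cW * cQ * sc))
    (dn (sm w (fun _ => 0) (fun _ => 0) (fun _ => 1) X.cl X.ch X.ml X.mh X.sl X.sh n) (cW * cQ))
    (up (sm w (fun _ => 0) (fun _ => 0) (fun _ => 1) X.ch X.cl X.mh X.ml X.sh X.sl n) (cW * cQ)))

theorem encl {L : ℕ} (t : Fin L → ℝ) (X : Sect) (hX : Encl t X) (w p q r : ℕ → ℤ)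
    (hw : ∀ l < L + 1, 0 < w l) (u : ℤ) (hu : 0 < u) (x : ℝ)
    (hx : x * ((cW : ℝ) * (u : ℝ)) = SR t w p q r) :
    ((dn (sm w p q r X.cl X.ch X.ml X.mh X.sl X.sh (L + 1)) (cW * cQ * u) : ℤ) : ℝ) ≤ cF * x ∧
    cF * x ≤ ((up (sm w p q r X.ch X.cl X.mh X.ml X.sh X.sl (L + 1)) (cW * cQ * u) : ℤ) : ℝ) := by
  have hd : 0 < cW * cQ * u := by
    have : (0 : ℤ) < cW * cQ := by norm_num [cW, cQ]
    exact mul_pos this hu
  have e : x * ((cW * cQ * u : ℤ) : ℝ) = (cQ : ℝ) * SR t w p q r := by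
    rw [← hx]; push_cast; ring
  constructor
  · refine dn_le _ _ hd x ?_
    rw [e]
    exact sm_le t X hX w p q r hw
  · refine le_up _ _ hd x ?_
    rw [e]
    exact le_sm t X hX w p q r hw

theorem cond_of_chk {L : ℕ} (t : Fin L → ℝ) (X : Sect) (hX : Encl t X) (w a b a' b' : ℕ → ℤ)
    (sc sc' : ℤ) (hsc : 0 < sc) (hsc' : 0 < sc') (h : chk1 X (L + 1) w a b a' b' sc sc' = true)
    (α β α' β' : Fin (L + 1) → ℝ) (hα : ∀ i, α i = (a i.val : ℝ) / (sc : ℝ))
    (hβ : ∀ i, β i = (b i.val : ℝ) / (sc : ℝ)) (hα' : ∀ i, α' i = (a' i.val : ℝ) / (sc' : ℝ))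
    (hβ' : ∀ i, β' i = (b' i.val : ℝ) / (sc' : ℝ)) :
    Cond t α β α' β' (fun i => (cW : ℝ) / (w i.val : ℝ)) := by
  unfold chk1 at h
  simp only [Bool.and_eq_true, decide_eq_true_eq] at h
  obtain ⟨h1, h2, h3⟩ := h
  rw [allN_iff] at h1
  have hw : ∀ l < L + 1, 0 < w l := fun l hl => by simpa using h1 l hl
  have hW : (0 : ℝ) < (cW : ℝ) := by norm_num [cW]
  have hQ : (0 : ℝ) < (cQ : ℝ) := by norm_num [cQ]
  have hF : (0 : ℝ) < (cF : ℝ) := by norm_num [cF]
  have hE : (0 : ℝ) < (cE : ℝ) := by norm_num [cE]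
  have hs : (0 : ℝ) < (sc : ℝ) := by exact_mod_cast hsc
  have hs' : (0 : ℝ) < (sc' : ℝ) := by exact_mod_cast hsc'
  have hwr : ∀ i : Fin (L + 1), (0 : ℝ) < (w i.val : ℝ) := fun i => by
    exact_mod_cast hw i.val i.isLt
  refine ⟨fun i => div_pos hW (hwr i), ?_, ?_⟩
  · -- the sum
    have s1 : ∀ i : Fin (L + 1), (cF : ℝ) * ((cW : ℝ) / (w i.val : ℝ) * Dl t i) ≤
        (((cW * cF * (nth X.ch i.val + nth X.sh i.val)) / (w i.val * cQ) + 1 : ℤ) : ℝ) := by
      intro i
      have hwi := hwr i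
      have e1 : Dl t i = Icc2 t i + Iss2 t i := by unfold Icc2 Iss2; ring
      have e2 : (cQ : ℝ) * Dl t i ≤ (nth X.ch i.val : ℝ) + (nth X.sh i.val : ℝ) := by
        rw [e1]
        have := (hX.c i).2
        have := (hX.s i).2
        linarith
      have hd : 0 < w i.val * cQ := mul_pos (hw i.val i.isLt) (by norm_num [cQ])
      have hd' : (0 : ℝ) < ((w i.val * cQ : ℤ) : ℝ) := by exact_mod_cast hd
      have e3 : (cW * cF * (nth X.ch i.val + nth X.sh i.val)) <
          ((cW * cF * (nth X.ch i.val + nth X.sh i.val)) / (w i.val * cQ) + 1) *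
            (w i.val * cQ) := Int.lt_ediv_add_one_mul_self _ hd
      have e4 : (((cW * cF * (nth X.ch i.val + nth X.sh i.val)) : ℤ) : ℝ) <
          ((((cW * cF * (nth X.ch i.val + nth X.sh i.val)) / (w i.val * cQ) + 1 : ℤ)) : ℝ) *
            ((w i.val * cQ : ℤ) : ℝ) := by exact_mod_cast e3
      refine le_of_mul_le_mul_right ?_ hd'
      refine le_trans ?_ e4.le
      have e5 : (cF : ℝ) * ((cW : ℝ) / (w i.val : ℝ) * Dl t i) * ((w i.val * cQ : ℤ) : ℝ) =
          (cW : ℝ) * cF * ((cQ : ℝ) * Dl t i) := by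
        push_cast
        field_simp
      rw [e5]
      push_cast
      exact mul_le_mul_of_nonneg_left e2 (mul_pos hW hF).le
    have s2 : (cF : ℝ) * ∑ i : Fin (L + 1), (cW : ℝ) / (w i.val : ℝ) * Dl t i ≤
        ((rs (fun l => (cW * cF * (nth X.ch l + nth X.sh l)) / (w l * cQ) + 1) (L + 1) : ℤ) : ℝ) := by
      rw [rs_eq, Int.cast_sum, Finset.sum_range, Finset.mul_sum]
      exact Finset.sum_le_sum fun i _ => s1 i
    have s3 : ((rs (fun l => (cW * cF * (nth X.ch l + nth X.sh l)) / (w l * cQ) + 1) (L + 1) : ℤ) :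
        ℝ) * (2 * (cE : ℝ)) ≤ (cF : ℝ) * (cP : ℝ) := by exact_mod_cast h2
    have g1 := cP_le
    rw [div_le_iff₀ hE] at g1
    have s4 : (cF : ℝ) * (2 * (cE : ℝ)) * ∑ i : Fin (L + 1), (cW : ℝ) / (w i.val : ℝ) * Dl t i ≤
        (cF : ℝ) * (2 * (cE : ℝ)) * (Real.pi / 2) := by
      calc _ = ((cF : ℝ) * ∑ i : Fin (L + 1), (cW : ℝ) / (w i.val : ℝ) * Dl t i) *
          (2 * (cE : ℝ)) := by ring
        _ ≤ _ := mul_le_mul_of_nonneg_right s2 (by positivity)
        _ ≤ (cF : ℝ) * (cP : ℝ) := s3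
        _ ≤ (cF : ℝ) * (Real.pi * cE) := mul_le_mul_of_nonneg_left g1 hF.le
        _ = _ := by ring
    exact le_of_mul_le_mul_left s4 (by positivity)
  · intro X00 X01 X11 Y00 Y01 Y11 f0 f1 f2 f3 f4 f5
    have one : ∀ v : ℤ, cW * cQ * 1 = cW * cQ := fun _ => by ring
    have k0 := encl t X hX w (fun _ => 1) (fun _ => 0) (fun _ => 0) hw 1 one_pos X00 (by
      rw [f0, SR, Finset.sum_mul]
      refine Finset.sum_congr rfl fun i _ => ?_
      have := (hwr i).ne'
      push_cast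
      field_simp
      ring)
    have k5 := encl t X hX w (fun _ => 0) (fun _ => 0) (fun _ => 1) hw 1 one_pos Y11 (by
      rw [f5, SR, Finset.sum_mul]
      refine Finset.sum_congr rfl fun i _ => ?_
      have := (hwr i).ne'
      push_cast
      field_simp
      ring)
    have k1 := encl t X hX w (fun l => -(b' l)) (fun l => a' l) (fun _ => 0) hw sc' hsc' X01 (by
      rw [f1, SR, Finset.sum_mul]
      refine Finset.sum_congr rfl fun i _ => ?_
      have := (hwr i).ne'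
      rw [hα' i, hβ' i]
      push_cast
      field_simp
      ring)
    have k2 := encl t X hX w (fun l => b' l * b' l) (fun l => -2 * (a' l * b' l))
      (fun l => a' l * a' l) hw (sc' * sc') (mul_pos hsc' hsc') X11 (by
      rw [f2, SR, Finset.sum_mul]
      refine Finset.sum_congr rfl fun i _ => ?_
      have := (hwr i).ne'
      rw [hα' i, hβ' i]
      push_cast
      field_simp
      ring)
    have k3 := encl t X hX w (fun l => a l * a l) (fun l => 2 * (a l * b l))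
      (fun l => b l * b l) hw (sc * sc) (mul_pos hsc hsc) Y00 (by
      rw [f3, SR, Finset.sum_mul]
      refine Finset.sum_congr rfl fun i _ => ?_
      have := (hwr i).ne'
      rw [hα i, hβ i]
      push_cast
      field_simp)
    have k4 := encl t X hX w (fun _ => 0) (fun l => -(a l)) (fun l => -(b l)) hw sc hsc Y01 (by
      rw [f4, SR, ← Finset.sum_neg_distrib, Finset.sum_mul]
      refine Finset.sum_congr rfl fun i _ => ?_
      have := (hwr i).ne'
      rw [hα i, hβ i]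
      push_cast
      field_simp
      ring)
    rw [mul_one] at k0 k5
    exact fin_sound h3 k0.1 k0.2 k1.1 k1.2 k2.1 k2.2 k3.1 k3.2 k4.1 k4.2 k5.1 k5.2

end Pool.Agent.U356.FA
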