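import Pool.Agent.U356.FA.Rel

/-!
# Orientable fillings of the circle: the value, from prefix sums
-/

set_option autoImplicit false

open MeasureTheory Metric Set Filter Topology InnerProductGeometry

namespace Pool.Agent.U356.FA

open Pool.Agent.H241R3.FV Pool.Agent.N526.CP Pool.Agent.N979.P1

/-- `1 + t - √(1 + t²)` -/
noncomputable def gf (t : ℝ) : ℝ := 1 + t - √(1 + t ^ 2)

theorem gf_eq (t : ℝ) : 1 - (√(1 + t ^ 2))⁻¹ + (t - t ^ 2 * (√(1 + t ^ 2))⁻¹) = gf t := by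
  have hp : (0 : ℝ) < 1 + t ^ 2 := by positivity
  have hs : √(1 + t ^ 2) * √(1 + t ^ 2) = 1 + t ^ 2 := Real.mul_self_sqrt hp.le
  have hs0 : √(1 + t ^ 2) ≠ 0 := (Real.sqrt_pos.2 hp).ne'
  unfold gf
  field_simp
  nlinarith [hs]

/-- enclosures of the roots -/
def chkS (D : Dt) (sl sh : List ℤ) (L : ℕ) : Bool :=
  allN (fun i => decide (0 ≤ nth sl i) && (decide (0 ≤ nth sh i) &&
    (decide (nth sl i ^ 2 * cT ^ 2 ≤ cQ ^ 2 * (cT ^ 2 + nth D.tz i ^ 2)) &&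
      decide (cQ ^ 2 * (cT ^ 2 + nth D.tz i ^ 2) ≤ nth sh i ^ 2 * cT ^ 2)))) L

/-- ends of the enclosure of `T Q g` -/
def ga (D : Dt) (s : List ℤ) (i : ℕ) : ℤ := cQ * (cT + nth D.tz i) - cT * nth s i

/-- lower bound of `S Q T P` -/
def PL (D : Dt) (sl sh : List ℤ) (L J : ℕ) : ℤ :=
  (D.ka + D.c J 0) * (cQ * cT) + rs (fun i => tl (D.c J (i + 1)) (ga D sh i) (ga D sl i)) L

/-- upper bound of `S R Q T Q` -/
def QH (D : Dt) (sl sh : List ℤ) (L J : ℕ) : ℤ :=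
  D.e J 0 * (cQ * cT) + rs (fun i => tl (D.e J (i + 1)) (ga D sl i) (ga D sh i)) L

def chkV (D : Dt) (sl sh : List ℤ) (L J : ℕ) (c : ℤ) : Bool :=
  decide (0 ≤ PL D sl sh L J) &&
  decide (c * (cP + 1) ^ 2 * (cS * cR * cQ * cT) ≤
    4000 * (2 * PL D sl sh L J * cR * cE ^ 2 - (cP + 1) * cE * QH D sl sh L J))

theorem ga_enc (D : Dt) (N L : ℕ) (sl sh : List ℤ) (h : chkS D sl sh L = true) (i : Fin L) :
    ((ga D sh i.val : ℤ) : ℝ) ≤ ((cQ : ℝ) * (cT : ℝ)) * gf ((D.toQ N L).toDat.t i) ∧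
    ((cQ : ℝ) * (cT : ℝ)) * gf ((D.toQ N L).toDat.t i) ≤ ((ga D sl i.val : ℤ) : ℝ) := by
  unfold chkS at h
  rw [allN_iff] at h
  have h1 := h i.val i.isLt
  simp only [Bool.and_eq_true, decide_eq_true_eq] at h1
  obtain ⟨a1, a2, a3, a4⟩ := h1
  have hT : (0 : ℝ) < (cT : ℝ) := by norm_num [cT]
  have hQ : (0 : ℝ) < (cQ : ℝ) := by norm_num [cQ]
  have et : (D.toQ N L).toDat.t i = (nth D.tz i.val : ℝ) / (cT : ℝ) := by
    simp only [DatQ.toDat, Dt.toQ]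
    push_cast
    rfl
  rw [et]
  set z : ℝ := (nth D.tz i.val : ℝ) with hz
  set s : ℝ := √(1 + (z / (cT : ℝ)) ^ 2) with hs
  have hp : (0 : ℝ) ≤ 1 + (z / (cT : ℝ)) ^ 2 := by positivity
  have hs0 : 0 ≤ s := Real.sqrt_nonneg _
  have hss : s ^ 2 = 1 + (z / (cT : ℝ)) ^ 2 := Real.sq_sqrt hp
  have hss' : s ^ 2 * (cT : ℝ) ^ 2 = (cT : ℝ) ^ 2 + z ^ 2 := by
    rw [hss]; field_simp
  have a1' : (0 : ℝ) ≤ (nth sl i.val : ℝ) := by exact_mod_cast a1
  have a2' : (0 : ℝ) ≤ (nth sh i.val : ℝ) := by exact_mod_cast a2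
  have a3' : (nth sl i.val : ℝ) ^ 2 * (cT : ℝ) ^ 2 ≤ (cQ : ℝ) ^ 2 * ((cT : ℝ) ^ 2 + z ^ 2) := by
    rw [hz]; exact_mod_cast a3
  have a4' : (cQ : ℝ) ^ 2 * ((cT : ℝ) ^ 2 + z ^ 2) ≤ (nth sh i.val : ℝ) ^ 2 * (cT : ℝ) ^ 2 := by
    rw [hz]; exact_mod_cast a4
  rw [← hss'] at a3' a4'
  have b1 : (nth sl i.val : ℝ) ≤ (cQ : ℝ) * s := by
    have : ((nth sl i.val : ℝ) * cT) ^ 2 ≤ ((cQ : ℝ) * s * cT) ^ 2 := by nlinarith
    have := (pow_le_pow_iff_left₀ (by positivity) (by positivity) two_ne_zero).1 this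
    exact le_of_mul_le_mul_right this hT
  have b2 : (cQ : ℝ) * s ≤ (nth sh i.val : ℝ) := by
    have : ((cQ : ℝ) * s * cT) ^ 2 ≤ ((nth sh i.val : ℝ) * cT) ^ 2 := by nlinarith
    have := (pow_le_pow_iff_left₀ (by positivity) (by positivity) two_ne_zero).1 this
    exact le_of_mul_le_mul_right this hT
  have e1 : ((cQ : ℝ) * (cT : ℝ)) * gf (z / (cT : ℝ)) =
      (cQ : ℝ) * ((cT : ℝ) + z) - (cT : ℝ) * ((cQ : ℝ) * s) := by
    unfold gf
    rw [← hs]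
    field_simp
  rw [e1]
  unfold ga
  push_cast
  rw [← hz]
  constructor
  · have := mul_le_mul_of_nonneg_left b2 hT.le
    linarith
  · have := mul_le_mul_of_nonneg_left b1 hT.le
    linarith

theorem val_of (D : Dt) (N L : ℕ) (sl sh : List ℤ) (c : ℤ) (hc : 0 ≤ c)
    (hS : chkS D sl sh L = true)
    (hE : ∀ j < N + 1, D.chkE L j = true) (hV : chkV D sl sh L N c = true) :
    (c : ℝ) / 1000 * Real.pi ≤ ValE (D.toQ (N + 1) L).toDat := by
  have pS : (0 : ℝ) < (cS : ℝ) := by norm_num [cS]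
  have pT : (0 : ℝ) < (cT : ℝ) := by norm_num [cT]
  have pR : (0 : ℝ) < (cR : ℝ) := by norm_num [cR]
  have pQ : (0 : ℝ) < (cQ : ℝ) := by norm_num [cQ]
  have pE : (0 : ℝ) < (cE : ℝ) := by norm_num [cE]
  have pP : (0 : ℝ) < (cP : ℝ) := by norm_num [cP]
  set g : Fin L → ℝ := fun i => gf ((D.toQ (N + 1) L).toDat.t i) with hg
  have hpi := Real.pi_pos
  -- the prefix sums
  have k1 : ∀ i, ∑ j : Fin (N + 1), (D.d j.val i : ℝ) = (D.c N i : ℝ) := by
    intro i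
    rw [← sum_d D N i, Int.cast_sum, Finset.sum_range]
  have k2 : ∀ i < L + 1, ∑ j : Fin (N + 1), (nth D.rz j.val : ℝ) * (D.d j.val i : ℝ) =
      (D.e N i : ℝ) := by
    intro i hi
    rw [← sum_e D L N i (fun j hj => hE j (Nat.lt_succ_of_le hj)) hi, Int.cast_sum,
      Finset.sum_range]
    refine Finset.sum_congr rfl fun j _ => ?_
    push_cast
    rfl
  -- the value
  set P : ℝ := ((D.ka : ℝ) + (D.c N 0 : ℝ) + ∑ i : Fin L, (D.c N (i.val + 1) : ℝ) * g i) / cS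
    with hP
  set Qv : ℝ := ((D.e N 0 : ℝ) + ∑ i : Fin L, (D.e N (i.val + 1) : ℝ) * g i) / (cS * cR) with hQv
  have e1 : ValE (D.toQ (N + 1) L).toDat = 4 * (2 / Real.pi * P - Qv) := by
    unfold ValE
    simp only [gf_eq]
    have r1 : ∑ j : Fin (N + 1), (2 / Real.pi - (D.toQ (N + 1) L).toDat.ρ j) *
        ((D.toQ (N + 1) L).toDat.m0 j + ∑ i, (D.toQ (N + 1) L).toDat.m j i *
          gf ((D.toQ (N + 1) L).toDat.t i)) =
        2 / Real.pi * (((D.c N 0 : ℝ) + ∑ i : Fin L, (D.c N (i.val + 1) : ℝ) * g i) / cS) - Qv := by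
      rw [hQv, ← k1 0, ← k2 0 (Nat.succ_pos _)]
      have s1 : ∑ i : Fin L, (D.c N (i.val + 1) : ℝ) * g i =
          ∑ j : Fin (N + 1), ∑ i : Fin L, (D.d j.val (i.val + 1) : ℝ) * g i := by
        rw [Finset.sum_comm]
        refine Finset.sum_congr rfl fun i _ => ?_
        rw [← k1, Finset.sum_mul]
      have s2 : ∑ i : Fin L, (D.e N (i.val + 1) : ℝ) * g i =
          ∑ j : Fin (N + 1), ∑ i : Fin L, (nth D.rz j.val : ℝ) *
            (D.d j.val (i.val + 1) : ℝ) * g i := by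
        rw [Finset.sum_comm]
        refine Finset.sum_congr rfl fun i _ => ?_
        rw [← k2 _ (Nat.succ_lt_succ i.isLt), Finset.sum_mul]
      rw [s1, s2, ← Finset.sum_add_distrib, ← Finset.sum_add_distrib, Finset.sum_div,
        Finset.sum_div, Finset.mul_sum, ← Finset.sum_sub_distrib]
      refine Finset.sum_congr rfl fun j _ => ?_
      have s3 : ∑ i : Fin L, (D.toQ (N + 1) L).toDat.m j i *
          gf ((D.toQ (N + 1) L).toDat.t i) =
          (∑ i : Fin L, (D.d j.val (i.val + 1) : ℝ) * g i) / cS := by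
        rw [Finset.sum_div]
        refine Finset.sum_congr rfl fun i _ => ?_
        simp only [hg, DatQ.toDat, Dt.toQ]
        push_cast
        ring
      have s4 : ∑ i : Fin L, (nth D.rz j.val : ℝ) * (D.d j.val (i.val + 1) : ℝ) * g i =
          (nth D.rz j.val : ℝ) * ∑ i : Fin L, (D.d j.val (i.val + 1) : ℝ) * g i := by
        rw [Finset.mul_sum]
        refine Finset.sum_congr rfl fun i _ => ?_
        ring
      rw [s3, s4]
      have s5 : (D.toQ (N + 1) L).toDat.m0 j = (D.d j.val 0 : ℝ) / cS := by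
        simp only [DatQ.toDat, Dt.toQ]
        push_cast
        rfl
      have s6 : (D.toQ (N + 1) L).toDat.ρ j = (nth D.rz j.val : ℝ) / cR := by
        simp only [DatQ.toDat, Dt.toQ]
        push_cast
        rfl
      rw [s5, s6]
      field_simp
    rw [r1, hP]
    have e4 : (D.toQ (N + 1) L).toDat.ka = (D.ka : ℝ) / (cS : ℝ) := by
      simp only [DatQ.toDat, Dt.toQ]
      push_cast
      rfl
    rw [e4]
    ring
  -- the bounds
  have b1 : ((PL D sl sh L N : ℤ) : ℝ) ≤ (cS : ℝ) * ((cQ : ℝ) * cT) * P := by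
    have : (cS : ℝ) * ((cQ : ℝ) * cT) * P = ((D.ka : ℝ) + (D.c N 0 : ℝ)) * ((cQ : ℝ) * cT) +
        ∑ i : Fin L, (D.c N (i.val + 1) : ℝ) * (((cQ : ℝ) * cT) * g i) := by
      rw [hP]
      have : ∑ i : Fin L, (D.c N (i.val + 1) : ℝ) * (((cQ : ℝ) * cT) * g i) =
          ((cQ : ℝ) * cT) * ∑ i : Fin L, (D.c N (i.val + 1) : ℝ) * g i := by
        rw [Finset.mul_sum]
        exact Finset.sum_congr rfl fun i _ => by ring
      rw [this]
      field_simp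
    rw [this, PL, rs_eq, Int.cast_add, Int.cast_mul, Int.cast_sum, Finset.sum_range]
    push_cast
    refine add_le_add le_rfl (Finset.sum_le_sum fun i _ => ?_)
    have := ga_enc D (N + 1) L sl sh hS i
    exact tl_le _ _ _ _ this.1 this.2
  have b2 : (cS : ℝ) * cR * ((cQ : ℝ) * cT) * Qv ≤ ((QH D sl sh L N : ℤ) : ℝ) := by
    have : (cS : ℝ) * cR * ((cQ : ℝ) * cT) * Qv = (D.e N 0 : ℝ) * ((cQ : ℝ) * cT) +
        ∑ i : Fin L, (D.e N (i.val + 1) : ℝ) * (((cQ : ℝ) * cT) * g i) := by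
      rw [hQv]
      have : ∑ i : Fin L, (D.e N (i.val + 1) : ℝ) * (((cQ : ℝ) * cT) * g i) =
          ((cQ : ℝ) * cT) * ∑ i : Fin L, (D.e N (i.val + 1) : ℝ) * g i := by
        rw [Finset.mul_sum]
        exact Finset.sum_congr rfl fun i _ => by ring
      rw [this]
      field_simp
    rw [this, QH, rs_eq, Int.cast_add, Int.cast_mul, Int.cast_sum, Finset.sum_range]
    push_cast
    refine add_le_add le_rfl (Finset.sum_le_sum fun i _ => ?_)
    have := ga_enc D (N + 1) L sl sh hS i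
    exact le_tu _ _ _ _ this.1 this.2
  unfold chkV at hV
  rw [Bool.and_eq_true, decide_eq_true_eq, decide_eq_true_eq] at hV
  obtain ⟨v1, v2⟩ := hV
  have v1' : (0 : ℝ) ≤ ((PL D sl sh L N : ℤ) : ℝ) := by exact_mod_cast v1
  have v2' : (c : ℝ) * ((cP : ℝ) + 1) ^ 2 * ((cS : ℝ) * cR * cQ * cT) ≤
      4000 * (2 * ((PL D sl sh L N : ℤ) : ℝ) * cR * (cE : ℝ) ^ 2 -
        ((cP : ℝ) + 1) * cE * ((QH D sl sh L N : ℤ) : ℝ)) := by exact_mod_cast v2
  -- `π ≤ ph`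
  set ph : ℝ := ((cP : ℝ) + 1) / cE with hph
  have hph0 : 0 < ph := by positivity
  have hpp : Real.pi ≤ ph := by
    have := le_cP
    push_cast at this
    exact this
  have hP0 : 0 ≤ P := by
    have : 0 ≤ (cS : ℝ) * ((cQ : ℝ) * cT) * P := v1'.trans b1
    exact nonneg_of_mul_nonneg_right this (by positivity)
  have w1 : (c : ℝ) / 1000 * ph ≤ 4 * (2 / ph * P - Qv) := by
    have hM : (0 : ℝ) < ph * (cE : ℝ) ^ 2 * (1000 * ((cS : ℝ) * cR * cQ * cT)) := by positivity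
    refine le_of_mul_le_mul_right ?_ hM
    have w2 : (c : ℝ) / 1000 * ph * (ph * (cE : ℝ) ^ 2 * (1000 * ((cS : ℝ) * cR * cQ * cT))) =
        (c : ℝ) * ((cP : ℝ) + 1) ^ 2 * ((cS : ℝ) * cR * cQ * cT) := by
      rw [hph]; field_simp
    have w3 : 4 * (2 / ph * P - Qv) * (ph * (cE : ℝ) ^ 2 * (1000 * ((cS : ℝ) * cR * cQ * cT))) =
        4000 * (2 * ((cS : ℝ) * ((cQ : ℝ) * cT) * P) * cR * (cE : ℝ) ^ 2 -
        ((cP : ℝ) + 1) * cE * ((cS : ℝ) * cR * ((cQ : ℝ) * cT) * Qv)) := by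
      rw [hph]; field_simp; ring
    rw [w2, w3]
    refine v2'.trans ?_
    have x1 := mul_le_mul_of_nonneg_right b1 (show (0 : ℝ) ≤ 2 * cR * (cE : ℝ) ^ 2 by positivity)
    have x2 := mul_le_mul_of_nonneg_left b2 (show (0 : ℝ) ≤ ((cP : ℝ) + 1) * cE by positivity)
    nlinarith
  rw [e1]
  have hc' : (0 : ℝ) ≤ (c : ℝ) / 1000 := by
    have : (0 : ℝ) ≤ (c : ℝ) := by exact_mod_cast hc
    positivity
  have y1 : (c : ℝ) / 1000 * Real.pi ≤ (c : ℝ) / 1000 * ph := mul_le_mul_of_nonneg_left hpp hc'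
  have y2 : 2 / ph ≤ 2 / Real.pi := div_le_div_of_nonneg_left (by norm_num) hpi hpp
  have y3 := mul_le_mul_of_nonneg_right y2 hP0
  linarith

end Pool.Agent.U356.FA
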