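import Pool.Agent.U356.FA.Dat
import Pool.Agent.U356.FA.Val

/-!
# Orientable fillings of the circle: the value of the data
-/

set_option autoImplicit false
set_option maxRecDepth 1000000

namespace Pool.Agent.U356.FA.ValD

open Pool.Agent.U356.FA Pool.Agent.U356.FA.Dat

noncomputable def sl : List ℤ := [
    10000000000186049999998269269, 10000000090855199587266635397, 10000000731913773215111428900,
    10000003678245773525401477126, 10000013390652284521569751863, 10000040027441690195586899612,
    10000105799440323921357250174, 10000229751229168634775073266, 10000467668954087469136634235,
    10000885714655677435910057390, 10001573875419608177659135121, 10002646122106689824370286628,
    10004280904381333893813593004, 10006732183885006922654880187, 10010155379539370566682843065,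
    10014967414736006019492890540, 10021567340060934799845204999, 10030430276195782419890761087,
    10042091781464706370063401036, 10057296129681177882344921689, 10076586723687738896688648843,
    10102365860926043496069862364, 10134308522277383281933749801, 10173593059241361261968171708,
    10222171439787145342572863994, 10281673843421605055908514349, 10356477349530775659919723018,
    10446071031732457064146470413, 10557257522227304274142548133, 10688628644923585331698749498,
    10848586655392305064499947838, 11041443063165430279816162505, 11273386607461353270024830310,
    11558639550297258058363435930, 11894267526838296233025945284, 12319427097893960101260090087,
    12825666921384790117334590672, 13461332574725319518559051373, 14255395959735702830660978251,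
    15260139819937299643955558090, 16551396274557744996797994026, 18194504664870654290631200035,
    20571460938844596313796492139, 23879967405308492170969628519, 28950356715765766190912608279,
    37492535765948080242154049777, 54658979286277940885475930334, 107854433423591934420395465311]

noncomputable def sh : List ℤ := [
    10000000000186049999998269270, 10000000090855199587266635398, 10000000731913773215111428901,
    10000003678245773525401477127, 10000013390652284521569751864, 10000040027441690195586899613,
    10000105799440323921357250175, 10000229751229168634775073267, 10000467668954087469136634236,
    10000885714655677435910057391, 10001573875419608177659135122, 10002646122106689824370286629,
    10004280904381333893813593005, 10006732183885006922654880188, 10010155379539370566682843066,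
    10014967414736006019492890541, 10021567340060934799845205000, 10030430276195782419890761088,
    10042091781464706370063401037, 10057296129681177882344921690, 10076586723687738896688648844,
    10102365860926043496069862365, 10134308522277383281933749802, 10173593059241361261968171709,
    10222171439787145342572863995, 10281673843421605055908514350, 10356477349530775659919723019,
    10446071031732457064146470414, 10557257522227304274142548134, 10688628644923585331698749499,
    10848586655392305064499947839, 11041443063165430279816162506, 11273386607461353270024830311,
    11558639550297258058363435931, 11894267526838296233025945285, 12319427097893960101260090088,
    12825666921384790117334590673, 13461332574725319518559051374, 14255395959735702830660978252,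
    15260139819937299643955558091, 16551396274557744996797994027, 18194504664870654290631200036,
    20571460938844596313796492140, 23879967405308492170969628520, 28950356715765766190912608280,
    37492535765948080242154049778, 54658979286277940885475930335, 107854433423591934420395465312]

theorem hS : chkS dt sl sh 48 = true := by decide +kernel

theorem hV : chkV dt sl sh 48 263 1972 = true := by decide +kernel

theorem h0 : dt.chk0 264 48 = true := by decide +kernel

end Pool.Agent.U356.FA.ValD
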