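import Pool.Agent.N979.P1.Fin
import Pool.Agent.N669.P1_JPOL
import Pool.Agent.U356.FA.All
import Pool.Agent.U356.FA.ValD
import Pool.Agent.U356.FA.Bnd

/-!
# Orientable fillings of the circle: the area is at least `1.972 π`
-/

set_option autoImplicit false
set_option maxRecDepth 1000000

open MeasureTheory Metric Set Filter Topology InnerProductGeometry

namespace Pool.Agent.U356.FA.Fin

open Pool.Agent.H241R3.FV Pool.Agent.N526.CP Pool.Agent.N979.P1 Pool.Agent.U356.FA
  Pool.Agent.U356.FA.Dat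

theorem k_top : 2 * cE * cR ≤ cP * nth dt.rz 264 ∧
    (cP + 1) * nth dt.rz 263 ≤ 2 * cE * cR := by decide +kernel

theorem rho_le (j : ℕ) (hj : j < 264) : nth dt.rz j ≤ nth dt.rz 263 := by
  have h := ValD.h0
  unfold Dt.chk0 at h
  simp only [Bool.and_eq_true, decide_eq_true_eq, allN_iff] at h
  obtain ⟨_, _, _, _, rm, _⟩ := h
  rcases Nat.lt_or_ge j 263 with h1 | h1
  · exact (mono_nat (fun j => nth dt.rz j) 264 rm 263 (by norm_num) j h1).le
  · have : j = 263 := by omega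
    rw [this]

theorem hE (j : ℕ) (hj : j < 263 + 1) : dt.chkE 48 j = true := by
  have h := All.all j hj
  unfold Dt.chkJ at h
  simp only [Bool.and_eq_true] at h
  exact h.1

theorem area (M : Type) [MetricSpace M] [CompactSpace M] (S : OFill 2 M)
    (hS : ∀ x y : Sph 2, angle (x : E 2) (y : E 2) ≤ dist (S.bd x) (S.bd y)) :
    ENNReal.ofReal (1.972 * Real.pi) ≤ S.vol := by
  have cert := cert_of dt X 264 48 (by norm_num) wz ValD.h0 Bnd.encl All.all
  have hv := val_of dt 263 48 ValD.sl ValD.sh 1972 (by norm_num) ValD.hS hE ValD.hV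
  obtain ⟨kb, kc⟩ := k_top
  have hR : (0 : ℝ) < (cR : ℝ) := by norm_num [cR]
  have hE : (0 : ℝ) < (cE : ℝ) := by norm_num [cE]
  have hpi := Real.pi_pos
  refine Pool.Agent.N979.P1.Fin.bound Pool.Agent.N669.P1_JPOL.main (dt.toQ 264 48) (((nth dt.rz 264 : ℚ)) / (cR : ℚ))
    1.972 ⟨?_, cert⟩ ⟨?_, ?_⟩ S hS
  · push_cast
    rw [div_le_div_iff₀ hpi hR]
    have g1 := cP_le
    rw [div_le_iff₀ hE] at g1
    have kb' : 2 * (cE : ℝ) * cR ≤ (cP : ℝ) * (nth dt.rz 264 : ℝ) := by exact_mod_cast kb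
    have h0 : (0 : ℝ) ≤ (nth dt.rz 264 : ℝ) := by
      have : (0 : ℤ) ≤ nth dt.rz 264 := by decide +kernel
      exact_mod_cast this
    have := mul_le_mul_of_nonneg_right g1 h0
    refine le_of_mul_le_mul_right ?_ hE
    nlinarith
  · intro j
    have e : (dt.toQ 264 48).toDat.ρ j = (nth dt.rz j.val : ℝ) / (cR : ℝ) := by
      simp only [DatQ.toDat, Dt.toQ]
      push_cast
      rfl
    rw [e, div_le_div_iff₀ hR hpi]
    have h1 : (nth dt.rz j.val : ℝ) ≤ (nth dt.rz 263 : ℝ) := by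
      exact_mod_cast rho_le j.val j.isLt
    have h0 : (0 : ℝ) ≤ (nth dt.rz 263 : ℝ) := by
      have : (0 : ℤ) ≤ nth dt.rz 263 := by decide +kernel
      exact_mod_cast this
    have kc' : ((cP : ℝ) + 1) * (nth dt.rz 263 : ℝ) ≤ 2 * (cE : ℝ) * cR := by exact_mod_cast kc
    have g2 := le_cP
    rw [le_div_iff₀ hE] at g2
    push_cast at g2
    have := mul_le_mul_of_nonneg_right g2 h0
    have h3 := mul_le_mul_of_nonneg_right h1 hpi.le
    refine h3.trans ?_
    refine le_of_mul_le_mul_right ?_ hE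
    nlinarith
  · have : (1.972 : ℝ) = ((1972 : ℤ) : ℝ) / 1000 := by norm_num
    rw [this]
    exact hv

end Pool.Agent.U356.FA.Fin
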