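import Pool.Agent.N979.P1.StmQ

/-!
# Orientable fillings of the circle: a certificate with integers

All data are integers with fixed denominators; the sums over the radii are given as prefix sums. The
test `chkJ` is computed by the kernel.
-/

set_option autoImplicit false

open MeasureTheory Metric Set Filter Topology InnerProductGeometry

namespace Pool.Agent.U356.FA

open Pool.Agent.H241R3.FV Pool.Agent.N526.CP Pool.Agent.N979.P1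

/-- entry of a list -/
def nth : List ℤ → ℕ → ℤ
  | [], _ => 0
  | a :: _, 0 => a
  | _ :: l, n + 1 => nth l n

/-- row of a table -/
def row : List (List ℤ) → ℕ → List ℤ
  | [], _ => []
  | a :: _, 0 => a
  | _ :: l, n + 1 => row l n

/-- sum -/
def rs (f : ℕ → ℤ) : ℕ → ℤ
  | 0 => 0
  | n + 1 => rs f n + f n

/-- for all `l < n` -/
def allN (f : ℕ → Bool) : ℕ → Bool
  | 0 => true
  | n + 1 => f n && allN f n

theorem rs_eq (f : ℕ → ℤ) (n : ℕ) : rs f n = ∑ i ∈ Finset.range n, f i := by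
  induction n with
  | zero => simp [rs]
  | succ n ih => rw [rs, ih, Finset.sum_range_succ]

theorem allN_iff (f : ℕ → Bool) (n : ℕ) : allN f n = true ↔ ∀ i < n, f i = true := by
  induction n with
  | zero => simp [allN]
  | succ n ih =>
    rw [allN, Bool.and_eq_true, ih]
    constructor
    · rintro ⟨h1, h2⟩ i hi
      rcases Nat.lt_succ_iff_lt_or_eq.1 hi with h | rfl
      · exact h2 i h
      · exact h1
    · intro h
      exact ⟨h n (Nat.lt_succ_self n), fun i hi => h i (Nat.lt_succ_of_lt hi)⟩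

/-! ### the constants: denominators -/

def cS : ℤ := 10000000
def cT : ℤ := 10000000
def cR : ℤ := 100000000
def cW : ℤ := 10000000000
def cQ : ℤ := 10000000000000000000000000000
def cF : ℤ := 100000000000000
def cP : ℤ := 314159265358979323846
def cE : ℤ := 100000000000000000000

/-- enclosures of the integrals over the sectors -/
structure Sect where
  cl : List ℤ
  ch : List ℤ
  ml : List ℤ
  mh : List ℤ
  sl : List ℤ
  sh : List ℤ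

structure Encl {L : ℕ} (t : Fin L → ℝ) (X : Sect) : Prop where
  c : ∀ l : Fin (L + 1), (nth X.cl l.val : ℝ) ≤ (cQ : ℝ) * Icc2 t l ∧
    (cQ : ℝ) * Icc2 t l ≤ (nth X.ch l.val : ℝ)
  m : ∀ l : Fin (L + 1), (nth X.ml l.val : ℝ) ≤ (cQ : ℝ) * Ics2 t l ∧
    (cQ : ℝ) * Ics2 t l ≤ (nth X.mh l.val : ℝ)
  s : ∀ l : Fin (L + 1), (nth X.sl l.val : ℝ) ≤ (cQ : ℝ) * Iss2 t l ∧
    (cQ : ℝ) * Iss2 t l ≤ (nth X.sh l.val : ℝ)

/-- the lower end of `p x`, `a ≤ x ≤ b` -/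
def tl : ℤ → ℤ → ℤ → ℤ
  | Int.ofNat n, a, _ => Int.ofNat n * a
  | Int.negSucc n, _, b => Int.negSucc n * b

theorem tl_le (p a b : ℤ) (x : ℝ) (h1 : (a : ℝ) ≤ x) (h2 : x ≤ (b : ℝ)) :
    ((tl p a b : ℤ) : ℝ) ≤ (p : ℝ) * x := by
  cases p with
  | ofNat n =>
    show (((Int.ofNat n) * a : ℤ) : ℝ) ≤ _
    rw [Int.cast_mul]
    refine mul_le_mul_of_nonneg_left h1 ?_
    simp
  | negSucc n =>
    show (((Int.negSucc n) * b : ℤ) : ℝ) ≤ _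
    rw [Int.cast_mul]
    refine mul_le_mul_of_nonpos_left h2 ?_
    rw [Int.cast_negSucc]
    have : (0 : ℝ) ≤ ((n + 1 : ℕ) : ℝ) := Nat.cast_nonneg _
    linarith

theorem le_tu (p a b : ℤ) (x : ℝ) (h1 : (a : ℝ) ≤ x) (h2 : x ≤ (b : ℝ)) :
    (p : ℝ) * x ≤ ((tl p b a : ℤ) : ℝ) := by
  cases p with
  | ofNat n =>
    show _ ≤ (((Int.ofNat n) * b : ℤ) : ℝ)
    rw [Int.cast_mul]
    refine mul_le_mul_of_nonneg_left h2 ?_
    simp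
  | negSucc n =>
    show _ ≤ (((Int.negSucc n) * a : ℤ) : ℝ)
    rw [Int.cast_mul]
    refine mul_le_mul_of_nonpos_left h1 ?_
    rw [Int.cast_negSucc]
    have : (0 : ℝ) ≤ ((n + 1 : ℕ) : ℝ) := Nat.cast_nonneg _
    linarith

/-- the enclosing sums -/
def sm (w p q r : ℕ → ℤ) (c1 c2 m1 m2 s1 s2 : List ℤ) (n : ℕ) : ℤ :=
  rs (fun l => w l * (tl (p l) (nth c1 l) (nth c2 l) + tl (q l) (nth m1 l) (nth m2 l) +
    tl (r l) (nth s1 l) (nth s2 l))) n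

/-- the sum -/
noncomputable def SR {L : ℕ} (t : Fin L → ℝ) (w p q r : ℕ → ℤ) : ℝ :=
  ∑ l : Fin (L + 1), (w l.val : ℝ) * ((p l.val : ℝ) * Icc2 t l + (q l.val : ℝ) * Ics2 t l +
    (r l.val : ℝ) * Iss2 t l)

theorem sm_le {L : ℕ} (t : Fin L → ℝ) (X : Sect) (hX : Encl t X) (w p q r : ℕ → ℤ)
    (hw : ∀ l < L + 1, 0 < w l) :
    ((sm w p q r X.cl X.ch X.ml X.mh X.sl X.sh (L + 1) : ℤ) : ℝ) ≤ (cQ : ℝ) * SR t w p q r := by
  rw [sm, rs_eq, SR, Finset.mul_sum, Int.cast_sum, Finset.sum_range]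
  refine Finset.sum_le_sum fun l _ => ?_
  have h0 : (0 : ℝ) ≤ (w l.val : ℝ) := by exact_mod_cast (hw l.val l.isLt).le
  have h1 := tl_le (p l.val) _ _ _ (hX.c l).1 (hX.c l).2
  have h2 := tl_le (q l.val) _ _ _ (hX.m l).1 (hX.m l).2
  have h3 := tl_le (r l.val) _ _ _ (hX.s l).1 (hX.s l).2
  rw [Int.cast_mul, Int.cast_add, Int.cast_add]
  calc _ ≤ (w l.val : ℝ) * ((p l.val : ℝ) * ((cQ : ℝ) * Icc2 t l) +
        (q l.val : ℝ) * ((cQ : ℝ) * Ics2 t l) + (r l.val : ℝ) * ((cQ : ℝ) * Iss2 t l)) :=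
        mul_le_mul_of_nonneg_left (by linarith) h0
    _ = _ := by ring

theorem le_sm {L : ℕ} (t : Fin L → ℝ) (X : Sect) (hX : Encl t X) (w p q r : ℕ → ℤ)
    (hw : ∀ l < L + 1, 0 < w l) :
    (cQ : ℝ) * SR t w p q r ≤ ((sm w p q r X.ch X.cl X.mh X.ml X.sh X.sl (L + 1) : ℤ) : ℝ) := by
  rw [sm, rs_eq, SR, Finset.mul_sum, Int.cast_sum, Finset.sum_range]
  refine Finset.sum_le_sum fun l _ => ?_
  have h0 : (0 : ℝ) ≤ (w l.val : ℝ) := by exact_mod_cast (hw l.val l.isLt).le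
  have h1 := le_tu (p l.val) _ _ _ (hX.c l).1 (hX.c l).2
  have h2 := le_tu (q l.val) _ _ _ (hX.m l).1 (hX.m l).2
  have h3 := le_tu (r l.val) _ _ _ (hX.s l).1 (hX.s l).2
  rw [Int.cast_mul, Int.cast_add, Int.cast_add]
  calc _ = (w l.val : ℝ) * ((p l.val : ℝ) * ((cQ : ℝ) * Icc2 t l) +
        (q l.val : ℝ) * ((cQ : ℝ) * Ics2 t l) + (r l.val : ℝ) * ((cQ : ℝ) * Iss2 t l)) := by ring
    _ ≤ _ := mul_le_mul_of_nonneg_left (by linarith) h0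

/-- rounding down -/
def dn (v den : ℤ) : ℤ := (v * cF) / den
/-- rounding up -/
def up (v den : ℤ) : ℤ := -((-(v * cF)) / den)

theorem ediv_le (v den : ℤ) (hd : 0 < den) : (((v / den : ℤ)) : ℝ) * (den : ℝ) ≤ (v : ℝ) := by
  have := Int.ediv_mul_le v hd.ne'
  exact_mod_cast this

theorem dn_le (v den : ℤ) (hd : 0 < den) (x : ℝ) (h : (v : ℝ) ≤ x * (den : ℝ)) :
    ((dn v den : ℤ) : ℝ) ≤ (cF : ℝ) * x := by
  have h1 := ediv_le (v * cF) den hd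
  have hd' : (0 : ℝ) < (den : ℝ) := by exact_mod_cast hd
  have hF : (0 : ℝ) < (cF : ℝ) := by norm_num [cF]
  unfold dn
  refine le_of_mul_le_mul_right ?_ hd'
  refine h1.trans ?_
  rw [Int.cast_mul]
  nlinarith

theorem le_up (v den : ℤ) (hd : 0 < den) (x : ℝ) (h : x * (den : ℝ) ≤ (v : ℝ)) :
    (cF : ℝ) * x ≤ ((up v den : ℤ) : ℝ) := by
  have h1 := ediv_le (-(v * cF)) den hd
  have hd' : (0 : ℝ) < (den : ℝ) := by exact_mod_cast hd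
  have hF : (0 : ℝ) < (cF : ℝ) := by norm_num [cF]
  unfold up
  refine le_of_mul_le_mul_right ?_ hd'
  push_cast at h1 ⊢
  nlinarith

/-! ### the final test -/

/-- the upper bound of the trace -/
def trU (x0u x1l x2u y0u y1l y1u y2u : ℤ) : ℤ :=
  x0u * y0u + 2 * (if x1l ≤ 0 then x1l * y1l else x1l * y1u) + x2u * y2u

/-- the lower bound of the product of the determinants -/
def detL (dX dY yy : ℤ) : ℤ := if 0 ≤ dX then dX * dY else dX * yy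

def fin2 (tr dX dY yy : ℤ) : Bool :=
  decide (0 ≤ tr) && (decide (0 ≤ dY) && (decide (tr * cE ^ 2 ≤ 2 * cP ^ 2 * cF ^ 2) &&
    decide (0 ≤ cP ^ 4 * cF ^ 4 - (cP + 1) ^ 2 * cE ^ 2 * cF ^ 2 * tr + cE ^ 4 * detL dX dY yy)))

def fin (x0l x0u x1l x1u x2l x2u y0l y0u y1l y1u y2l y2u : ℤ) : Bool :=
  decide (0 ≤ x0l) && (decide (0 ≤ x2l) && (decide (0 ≤ y0l) && (decide (0 ≤ y2l) &&
    (decide (y1u ≤ 0) && fin2 (trU x0u x1l x2u y0u y1l y1u y2u)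
      (x0l * x2l - max (x1l ^ 2) (x1u ^ 2)) (y0l * y2l - y1l ^ 2) (y0u * y2u)))))

theorem cP_le : ((cP : ℤ) : ℝ) / ((cE : ℤ) : ℝ) ≤ Real.pi := by
  have := Real.pi_gt_d20
  norm_num [cP, cE] at this ⊢
  linarith

theorem le_cP : Real.pi ≤ ((cP : ℤ) + 1 : ℝ) / ((cE : ℤ) : ℝ) := by
  have := Real.pi_lt_d20
  norm_num [cP, cE] at this ⊢
  linarith

theorem fin_sound {x0l x0u x1l x1u x2l x2u y0l y0u y1l y1u y2l y2u : ℤ}
    (h : fin x0l x0u x1l x1u x2l x2u y0l y0u y1l y1u y2l y2u = true)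
    {X0 X1 X2 Y0 Y1 Y2 : ℝ}
    (a0 : (x0l : ℝ) ≤ cF * X0) (b0 : cF * X0 ≤ (x0u : ℝ))
    (a1 : (x1l : ℝ) ≤ cF * X1) (b1 : cF * X1 ≤ (x1u : ℝ))
    (a2 : (x2l : ℝ) ≤ cF * X2) (b2 : cF * X2 ≤ (x2u : ℝ))
    (c0 : (y0l : ℝ) ≤ cF * Y0) (d0 : cF * Y0 ≤ (y0u : ℝ))
    (c1 : (y1l : ℝ) ≤ cF * Y1) (d1 : cF * Y1 ≤ (y1u : ℝ))
    (c2 : (y2l : ℝ) ≤ cF * Y2) (d2 : cF * Y2 ≤ (y2u : ℝ)) :
    X0 * Y0 + 2 * (X1 * Y1) + X2 * Y2 ≤ 2 * Real.pi ^ 2 ∧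
    0 ≤ Real.pi ^ 4 - Real.pi ^ 2 * (X0 * Y0 + 2 * (X1 * Y1) + X2 * Y2) +
      (X0 * X2 - X1 ^ 2) * (Y0 * Y2 - Y1 ^ 2) := by
  unfold fin fin2 at h
  simp only [Bool.and_eq_true, decide_eq_true_eq] at h
  obtain ⟨p0, p2, q0, q2, q1, t0, e0, t1, t2⟩ := h
  have hF : (0 : ℝ) < (cF : ℝ) := by norm_num [cF]
  have hE : (0 : ℝ) < (cE : ℝ) := by norm_num [cE]
  have hP : (0 : ℝ) < (cP : ℝ) := by norm_num [cP]
  have p0' : (0 : ℝ) ≤ (x0l : ℝ) := by exact_mod_cast p0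
  have p2' : (0 : ℝ) ≤ (x2l : ℝ) := by exact_mod_cast p2
  have q0' : (0 : ℝ) ≤ (y0l : ℝ) := by exact_mod_cast q0
  have q2' : (0 : ℝ) ≤ (y2l : ℝ) := by exact_mod_cast q2
  have q1' : (y1u : ℝ) ≤ 0 := by exact_mod_cast q1
  generalize hx0 : (cF : ℝ) * X0 = x0 at a0 b0
  generalize hx1 : (cF : ℝ) * X1 = x1 at a1 b1
  generalize hx2 : (cF : ℝ) * X2 = x2 at a2 b2
  generalize hy0 : (cF : ℝ) * Y0 = y0 at c0 d0
  generalize hy1 : (cF : ℝ) * Y1 = y1 at c1 d1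
  generalize hy2 : (cF : ℝ) * Y2 = y2 at c2 d2
  set tr := trU x0u x1l x2u y0u y1l y1u y2u with htr
  set dX := x0l * x2l - max (x1l ^ 2) (x1u ^ 2) with hdX
  set dY := y0l * y2l - y1l ^ 2 with hdY
  -- the trace
  have k0 : x0 * y0 ≤ (x0u : ℝ) * y0u := mul_le_mul b0 d0 (q0'.trans c0) (p0'.trans (a0.trans b0))
  have k2 : x2 * y2 ≤ (x2u : ℝ) * y2u := mul_le_mul b2 d2 (q2'.trans c2) (p2'.trans (a2.trans b2))
  have k1 : x1 * y1 ≤ (((if x1l ≤ 0 then x1l * y1l else x1l * y1u : ℤ)) : ℝ) := by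
    have hy : y1 ≤ 0 := d1.trans q1'
    have s1 : x1 * y1 ≤ (x1l : ℝ) * y1 := mul_le_mul_of_nonpos_right a1 hy
    refine s1.trans ?_
    split_ifs with hx
    · have hx' : (x1l : ℝ) ≤ 0 := by exact_mod_cast hx
      rw [Int.cast_mul]
      exact mul_le_mul_of_nonpos_left c1 hx'
    · have hx' : (0 : ℝ) ≤ (x1l : ℝ) := by
        have := (not_le.1 hx).le
        exact_mod_cast this
      rw [Int.cast_mul]
      exact mul_le_mul_of_nonneg_left d1 hx'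
  have kt : x0 * y0 + 2 * (x1 * y1) + x2 * y2 ≤ (tr : ℝ) := by
    rw [htr, trU, Int.cast_add, Int.cast_add, Int.cast_mul, Int.cast_mul, Int.cast_mul]
    push_cast at k1 ⊢
    linarith
  -- the determinants
  have m1 : x1 ^ 2 ≤ ((max (x1l ^ 2) (x1u ^ 2) : ℤ) : ℝ) := by
    rw [Int.cast_max]
    rcases le_total 0 x1 with h | h
    · refine le_max_of_le_right ?_
      push_cast
      exact pow_le_pow_left₀ h b1 2
    · refine le_max_of_le_left ?_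
      push_cast
      nlinarith
  have m2 : (dX : ℝ) ≤ x0 * x2 - x1 ^ 2 := by
    rw [hdX, Int.cast_sub, Int.cast_mul]
    have := mul_le_mul a0 a2 p2' (p0'.trans a0)
    linarith
  have m3 : (dY : ℝ) ≤ y0 * y2 - y1 ^ 2 := by
    rw [hdY, Int.cast_sub, Int.cast_mul, Int.cast_pow]
    have := mul_le_mul c0 c2 q2' (q0'.trans c0)
    have : y1 ^ 2 ≤ (y1l : ℝ) ^ 2 := by nlinarith
    linarith
  have m4 : y0 * y2 - y1 ^ 2 ≤ (y0u : ℝ) * y2u := by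
    have := mul_le_mul d0 d2 (q2'.trans c2) (q0'.trans (c0.trans d0))
    nlinarith [sq_nonneg y1]
  have e0' : (0 : ℝ) ≤ (dY : ℝ) := by exact_mod_cast e0
  have md : ((detL dX dY (y0u * y2u) : ℤ) : ℝ) ≤ (x0 * x2 - x1 ^ 2) * (y0 * y2 - y1 ^ 2) := by
    have s1 : (dX : ℝ) * (y0 * y2 - y1 ^ 2) ≤ (x0 * x2 - x1 ^ 2) * (y0 * y2 - y1 ^ 2) :=
      mul_le_mul_of_nonneg_right m2 (e0'.trans m3)
    refine le_trans ?_ s1
    unfold detL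
    split_ifs with hd
    · have hd' : (0 : ℝ) ≤ (dX : ℝ) := by exact_mod_cast hd
      rw [Int.cast_mul]
      exact mul_le_mul_of_nonneg_left m3 hd'
    · have hd' : (dX : ℝ) ≤ 0 := by
        have := (not_le.1 hd).le
        exact_mod_cast this
      rw [Int.cast_mul, Int.cast_mul]
      exact mul_le_mul_of_nonpos_left m4 hd'
  -- real numbers
  have t0' : (0 : ℝ) ≤ (tr : ℝ) := by exact_mod_cast t0
  have t1' : (tr : ℝ) * (cE : ℝ) ^ 2 ≤ 2 * (cP : ℝ) ^ 2 * (cF : ℝ) ^ 2 := by exact_mod_cast t1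
  have t2' : (0 : ℝ) ≤ (cP : ℝ) ^ 4 * (cF : ℝ) ^ 4 -
      ((cP : ℝ) + 1) ^ 2 * (cE : ℝ) ^ 2 * (cF : ℝ) ^ 2 * (tr : ℝ) +
      (cE : ℝ) ^ 4 * ((detL dX dY (y0u * y2u) : ℤ) : ℝ) := by exact_mod_cast t2
  have g1 := cP_le
  have g2 := le_cP
  rw [div_le_iff₀ hE] at g1
  rw [le_div_iff₀ hE] at g2
  have hpi := Real.pi_pos
  have r1 : (cF : ℝ) ^ 2 * (X0 * Y0 + 2 * (X1 * Y1) + X2 * Y2) =
      x0 * y0 + 2 * (x1 * y1) + x2 * y2 := by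
    rw [← hx0, ← hx1, ← hx2, ← hy0, ← hy1, ← hy2]; ring
  have r2 : (cF : ℝ) ^ 4 * ((X0 * X2 - X1 ^ 2) * (Y0 * Y2 - Y1 ^ 2)) =
      (x0 * x2 - x1 ^ 2) * (y0 * y2 - y1 ^ 2) := by
    rw [← hx0, ← hx1, ← hx2, ← hy0, ← hy1, ← hy2]; ring
  have g3 : (cP : ℝ) ^ 2 ≤ (Real.pi * cE) ^ 2 := pow_le_pow_left₀ hP.le g1 2
  have g4 : (cP : ℝ) ^ 4 ≤ (Real.pi * cE) ^ 4 := pow_le_pow_left₀ hP.le g1 4
  have g5 : (Real.pi * cE) ^ 2 ≤ ((cP : ℝ) + 1) ^ 2 :=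
    pow_le_pow_left₀ (mul_pos hpi hE).le g2 2
  set TT := X0 * Y0 + 2 * (X1 * Y1) + X2 * Y2 with hTT
  set DD := (X0 * X2 - X1 ^ 2) * (Y0 * Y2 - Y1 ^ 2) with hDD
  have r3 : (cF : ℝ) ^ 2 * TT ≤ (tr : ℝ) := by rw [r1]; exact kt
  have hF2 : (0 : ℝ) < (cF : ℝ) ^ 2 := by positivity
  have hF4 : (0 : ℝ) < (cF : ℝ) ^ 4 := by positivity
  have hE2 : (0 : ℝ) < (cE : ℝ) ^ 2 := by positivity
  have hE4 : (0 : ℝ) < (cE : ℝ) ^ 4 := by positivity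
  constructor
  · have s1 : (cE : ℝ) ^ 2 * (cF : ℝ) ^ 2 * TT ≤ (cE : ℝ) ^ 2 * (cF : ℝ) ^ 2 * (2 * Real.pi ^ 2) := by
      calc (cE : ℝ) ^ 2 * (cF : ℝ) ^ 2 * TT = ((cF : ℝ) ^ 2 * TT) * (cE : ℝ) ^ 2 := by ring
        _ ≤ (tr : ℝ) * (cE : ℝ) ^ 2 := mul_le_mul_of_nonneg_right r3 hE2.le
        _ ≤ 2 * (cP : ℝ) ^ 2 * (cF : ℝ) ^ 2 := t1'
        _ ≤ 2 * (Real.pi * cE) ^ 2 * (cF : ℝ) ^ 2 := by
            refine mul_le_mul_of_nonneg_right ?_ hF2.le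
            linarith
        _ = _ := by ring
    exact le_of_mul_le_mul_left s1 (mul_pos hE2 hF2)
  · have s1 : 0 ≤ (cE : ℝ) ^ 4 * (cF : ℝ) ^ 4 * (Real.pi ^ 4 - Real.pi ^ 2 * TT + DD) := by
      have u1 : (cE : ℝ) ^ 4 * (cF : ℝ) ^ 4 * (Real.pi ^ 4 - Real.pi ^ 2 * TT + DD) =
          (Real.pi * cE) ^ 4 * (cF : ℝ) ^ 4 -
            (Real.pi * cE) ^ 2 * (cE : ℝ) ^ 2 * (cF : ℝ) ^ 2 * ((cF : ℝ) ^ 2 * TT) +
            (cE : ℝ) ^ 4 * ((cF : ℝ) ^ 4 * DD) := by ring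
      rw [u1, r2]
      have u2 : (cP : ℝ) ^ 4 * (cF : ℝ) ^ 4 ≤ (Real.pi * cE) ^ 4 * (cF : ℝ) ^ 4 :=
        mul_le_mul_of_nonneg_right g4 hF4.le
      have u3 : (Real.pi * cE) ^ 2 * (cE : ℝ) ^ 2 * (cF : ℝ) ^ 2 * ((cF : ℝ) ^ 2 * TT) ≤
          ((cP : ℝ) + 1) ^ 2 * (cE : ℝ) ^ 2 * (cF : ℝ) ^ 2 * (tr : ℝ) := by
        have v1 : (Real.pi * cE) ^ 2 * (cE : ℝ) ^ 2 * (cF : ℝ) ^ 2 * ((cF : ℝ) ^ 2 * TT) ≤
            (Real.pi * cE) ^ 2 * (cE : ℝ) ^ 2 * (cF : ℝ) ^ 2 * (tr : ℝ) :=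
          mul_le_mul_of_nonneg_left r3 (by positivity)
        refine v1.trans ?_
        refine mul_le_mul_of_nonneg_right ?_ t0'
        refine mul_le_mul_of_nonneg_right ?_ hF2.le
        exact mul_le_mul_of_nonneg_right g5 hE2.le
      have u4 := mul_le_mul_of_nonneg_left md hE4.le
      linarith
    exact nonneg_of_mul_nonneg_right s1 (mul_pos hE4 hF4)

end Pool.Agent.U356.FA
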