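import Pool.Agent.U356.FA.Dat

/-!
# Orientable fillings of the circle: the tests 0 to 11
-/

set_option autoImplicit false
set_option maxRecDepth 1000000

namespace Pool.Agent.U356.FA.K0

open Pool.Agent.U356.FA Pool.Agent.U356.FA.Dat

theorem t0 : dt.chkJ X 48 wz 0 = true := by decide +kernel

theorem t1 : dt.chkJ X 48 wz 1 = true := by decide +kernel

theorem t2 : dt.chkJ X 48 wz 2 = true := by decide +kernel

theorem t3 : dt.chkJ X 48 wz 3 = true := by decide +kernel

theorem t4 : dt.chkJ X 48 wz 4 = true := by decide +kernel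

theorem t5 : dt.chkJ X 48 wz 5 = true := by decide +kernel

theorem t6 : dt.chkJ X 48 wz 6 = true := by decide +kernel

theorem t7 : dt.chkJ X 48 wz 7 = true := by decide +kernel

theorem t8 : dt.chkJ X 48 wz 8 = true := by decide +kernel

theorem t9 : dt.chkJ X 48 wz 9 = true := by decide +kernel

theorem t10 : dt.chkJ X 48 wz 10 = true := by decide +kernel

theorem t11 : dt.chkJ X 48 wz 11 = true := by decide +kernel

theorem all (J : ℕ) (h1 : 0 ≤ J) (h2 : J < 12) : dt.chkJ X 48 wz J = true := by
  interval_cases J
  · exact t0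
  · exact t1
  · exact t2
  · exact t3
  · exact t4
  · exact t5
  · exact t6
  · exact t7
  · exact t8
  · exact t9
  · exact t10
  · exact t11

end Pool.Agent.U356.FA.K0
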