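import Pool.Agent.U356.FA.Dat

/-!
# Orientable fillings of the circle: the tests 216 to 227
-/

set_option autoImplicit false
set_option maxRecDepth 1000000

namespace Pool.Agent.U356.FA.K18

open Pool.Agent.U356.FA Pool.Agent.U356.FA.Dat

theorem t216 : dt.chkJ X 48 wz 216 = true := by decide +kernel

theorem t217 : dt.chkJ X 48 wz 217 = true := by decide +kernel

theorem t218 : dt.chkJ X 48 wz 218 = true := by decide +kernel

theorem t219 : dt.chkJ X 48 wz 219 = true := by decide +kernel

theorem t220 : dt.chkJ X 48 wz 220 = true := by decide +kernel

theorem t221 : dt.chkJ X 48 wz 221 = true := by decide +kernel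

theorem t222 : dt.chkJ X 48 wz 222 = true := by decide +kernel

theorem t223 : dt.chkJ X 48 wz 223 = true := by decide +kernel

theorem t224 : dt.chkJ X 48 wz 224 = true := by decide +kernel

theorem t225 : dt.chkJ X 48 wz 225 = true := by decide +kernel

theorem t226 : dt.chkJ X 48 wz 226 = true := by decide +kernel

theorem t227 : dt.chkJ X 48 wz 227 = true := by decide +kernel

theorem all (J : ℕ) (h1 : 216 ≤ J) (h2 : J < 228) : dt.chkJ X 48 wz J = true := by
  interval_cases J
  · exact t216
  · exact t217
  · exact t218
  · exact t219
  · exact t220
  · exact t221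
  · exact t222
  · exact t223
  · exact t224
  · exact t225
  · exact t226
  · exact t227

end Pool.Agent.U356.FA.K18
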