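import Pool.Agent.U356.FA.Chk

/-!
# Orientable fillings of the circle: integer data and prefix sums
-/

set_option autoImplicit false

open MeasureTheory Metric Set Filter Topology InnerProductGeometry

namespace Pool.Agent.U356.FA

open Pool.Agent.H241R3.FV Pool.Agent.N526.CP Pool.Agent.N979.P1

/-- integer data: `cz`, `ez` are the prefix sums of the rows `(m0, m)` and of `ρ (m0, m)` -/
structure Dt where
  ka : ℤ
  rz : List ℤ
  tz : List ℤ
  cz : List (List ℤ)
  ez : List (List ℤ)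

def Dt.c (D : Dt) (J i : ℕ) : ℤ := nth (row D.cz J) i

def Dt.e (D : Dt) (J i : ℕ) : ℤ := nth (row D.ez J) i

/-- the entries -/
def Dt.d (D : Dt) : ℕ → ℕ → ℤ
  | 0, i => D.c 0 i
  | J + 1, i => D.c (J + 1) i - D.c J i

/-- the rational data -/
def Dt.toQ (D : Dt) (N L : ℕ) : DatQ N L where
  ka := (D.ka : ℚ) / (cS : ℚ)
  ρ := fun j => (nth D.rz j.val : ℚ) / (cR : ℚ)
  t := fun i => (nth D.tz i.val : ℚ) / (cT : ℚ)
  m0 := fun j => (D.d j.val 0 : ℚ) / (cS : ℚ)
  m := fun j i => (D.d j.val (i.val + 1) : ℚ) / (cS : ℚ)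

/-- test of the second prefix sums -/
def Dt.chkE (D : Dt) (L : ℕ) : ℕ → Bool
  | 0 => allN (fun i => decide (D.e 0 i = nth D.rz 0 * D.c 0 i)) (L + 1)
  | J + 1 => allN (fun i => decide (D.e (J + 1) i = D.e J i + nth D.rz (J + 1) *
      (D.c (J + 1) i - D.c J i))) (L + 1)

theorem sum_d (D : Dt) (J i : ℕ) : ∑ j ∈ Finset.range (J + 1), D.d j i = D.c J i := by
  induction J with
  | zero => simp [Dt.d]
  | succ J ih => rw [Finset.sum_range_succ, ih, Dt.d]; ring

theorem sum_e (D : Dt) (L J i : ℕ) (h : ∀ j ≤ J, D.chkE L j = true) (hi : i < L + 1) :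
    ∑ j ∈ Finset.range (J + 1), nth D.rz j * D.d j i = D.e J i := by
  induction J with
  | zero =>
    have h0 := h 0 le_rfl
    rw [Dt.chkE, allN_iff] at h0
    have := h0 i hi
    rw [decide_eq_true_eq] at this
    rw [this]
    simp [Dt.d]
  | succ J ih =>
    rw [Finset.sum_range_succ, ih fun j hj => h j (Nat.le_succ_of_le hj)]
    have h0 := h (J + 1) le_rfl
    rw [Dt.chkE, allN_iff] at h0
    have := h0 i hi
    rw [decide_eq_true_eq] at this
    rw [this, Dt.d]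

theorem sum_fin_lt (N M : ℕ) (hM : M ≤ N) (X : ℕ → ℝ) :
    ∑ j : Fin N, (if j.val < M then X j.val else 0) = ∑ j ∈ Finset.range M, X j := by
  rw [← Finset.sum_range (fun j => if j < M then X j else 0), ← Finset.sum_filter]
  refine Finset.sum_congr ?_ fun _ _ => rfl
  ext j
  simp only [Finset.mem_filter, Finset.mem_range]
  constructor
  · exact fun h => h.2
  · exact fun h => ⟨h.trans_le hM, h⟩

/-- `al` and `be` in terms of the column sums -/
theorem al_of (D : Dt) (N L : ℕ) (f : Fin N → ℝ) (G : ℕ → ℝ)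
    (hG : ∀ i < L + 1, ∑ j : Fin N, f j * (D.d j.val i : ℝ) = G i) (l : Fin (L + 1)) :
    (D.toQ N L).toDat.al f l = (∑ i ∈ Finset.range l.val, G (i + 1) * (nth D.tz i : ℝ)) /
      ((cS : ℝ) * (cT : ℝ)) := by
  have hS : (cS : ℝ) ≠ 0 := by norm_num [cS]
  have hT : (cT : ℝ) ≠ 0 := by norm_num [cT]
  rw [← sum_fin_lt L l.val (Nat.lt_succ_iff.1 l.isLt) (fun i => G (i + 1) * (nth D.tz i : ℝ)),
    Finset.sum_div]
  unfold Dat.al
  simp only [Finset.mul_sum]
  rw [Finset.sum_comm]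
  refine Finset.sum_congr rfl fun i _ => ?_
  split_ifs with hi
  · rw [← hG (i.val + 1) (Nat.succ_lt_succ i.isLt), Finset.sum_mul, Finset.sum_div]
    refine Finset.sum_congr rfl fun j _ => ?_
    simp only [DatQ.toDat, Dt.toQ]
    push_cast
    field_simp
  · simp

theorem be_of (D : Dt) (N L : ℕ) (f : Fin N → ℝ) (G : ℕ → ℝ)
    (hG : ∀ i < L + 1, ∑ j : Fin N, f j * (D.d j.val i : ℝ) = G i) (l : Fin (L + 1)) :
    (D.toQ N L).toDat.be f l = ((D.ka : ℝ) + G 0 + (∑ i ∈ Finset.range L, G (i + 1) -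
      ∑ i ∈ Finset.range l.val, G (i + 1))) / (cS : ℝ) := by
  have hS : (cS : ℝ) ≠ 0 := by norm_num [cS]
  have e1 : ∑ i ∈ Finset.range L, G (i + 1) - ∑ i ∈ Finset.range l.val, G (i + 1) =
      ∑ i : Fin L, (if l.val ≤ i.val then G (i.val + 1) else 0) := by
    rw [← sum_fin_lt L l.val (Nat.lt_succ_iff.1 l.isLt) (fun i => G (i + 1)),
      Finset.sum_range (fun i => G (i + 1)), ← Finset.sum_sub_distrib]
    refine Finset.sum_congr rfl fun i _ => ?_
    by_cases h : i.val < l.val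
    · rw [if_pos h, if_neg (not_le.2 h), sub_self]
    · rw [if_neg h, if_pos (not_lt.1 h), sub_zero]
  rw [e1]
  unfold Dat.be
  simp only [mul_add, Finset.sum_add_distrib, Finset.mul_sum]
  rw [Finset.sum_comm (s := Finset.univ) (t := Finset.univ)]
  have e2 : ∑ j : Fin N, f j * (D.toQ N L).toDat.m0 j = G 0 / (cS : ℝ) := by
    rw [← hG 0 (Nat.succ_pos _), Finset.sum_div]
    refine Finset.sum_congr rfl fun j _ => ?_
    simp only [DatQ.toDat, Dt.toQ]
    push_cast
    ring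
  have e3 : ∑ i : Fin L, ∑ j : Fin N, f j * (if l.val ≤ i.val then (D.toQ N L).toDat.m j i else 0) =
      (∑ i : Fin L, (if l.val ≤ i.val then G (i.val + 1) else 0)) / (cS : ℝ) := by
    rw [Finset.sum_div]
    refine Finset.sum_congr rfl fun i _ => ?_
    split_ifs with hi
    · rw [← hG (i.val + 1) (Nat.succ_lt_succ i.isLt), Finset.sum_div]
      refine Finset.sum_congr rfl fun j _ => ?_
      simp only [DatQ.toDat, Dt.toQ]
      push_cast
      ring
    · simp
  rw [e2, e3]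
  have e4 : (D.toQ N L).toDat.ka = (D.ka : ℝ) / (cS : ℝ) := by
    simp only [DatQ.toDat, Dt.toQ]
    push_cast
    rfl
  rw [e4]
  ring

/-! ### the test for an interval -/

def Dt.aA (D : Dt) (J l : ℕ) : ℤ := rs (fun i => D.c J (i + 1) * nth D.tz i) l
def Dt.sA (D : Dt) (J l : ℕ) : ℤ := rs (fun i => D.c J (i + 1)) l
def Dt.aE (D : Dt) (J l : ℕ) : ℤ := rs (fun i => D.e J (i + 1) * nth D.tz i) l
def Dt.sE (D : Dt) (J l : ℕ) : ℤ := rs (fun i => D.e J (i + 1)) l
def Dt.bA (D : Dt) (L J l : ℕ) : ℤ := D.ka + D.c J 0 + (D.sA J L - D.sA J l)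
def Dt.bE (D : Dt) (L J l : ℕ) : ℤ := D.e J 0 + (D.sE J L - D.sE J l)

/-- the test for the interval `J` at the radius `rr` -/
def Dt.chkR (D : Dt) (X : Sect) (L : ℕ) (w : List ℤ) (J : ℕ) (rr : ℤ) : Bool :=
  decide (0 < rr) &&
  chk1 X (L + 1) (fun l => nth w l) (fun l => D.aA J l) (fun l => D.bA L J l * cT)
    (fun l => rr * D.aA J l - D.aE J l) (fun l => (rr * D.bA L J l - D.bE L J l) * cT)
    (cS * cT) (cS * cT * rr)

theorem cond_of_chkR (D : Dt) (X : Sect) (N L : ℕ) (w : List ℤ) (J : ℕ) (rr : ℤ) (hJ : J < N)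
    (hE : ∀ j ≤ J, D.chkE L j = true) (hX : Encl (D.toQ N L).toDat.t X)
    (h : D.chkR X L w J rr = true) :
    Cond (D.toQ N L).toDat.t ((D.toQ N L).toDat.al (fA (J + 1))) ((D.toQ N L).toDat.be (fA (J + 1)))
      ((D.toQ N L).toDat.al (fC (D.toQ N L).toDat (J + 1) ((rr : ℝ) / (cR : ℝ))))
      ((D.toQ N L).toDat.be (fC (D.toQ N L).toDat (J + 1) ((rr : ℝ) / (cR : ℝ))))
      (fun i => (cW : ℝ) / (nth w i.val : ℝ)) := by
  unfold Dt.chkR at h
  rw [Bool.and_eq_true, decide_eq_true_eq] at h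
  obtain ⟨hr, h⟩ := h
  have hS : (cS : ℝ) ≠ 0 := by norm_num [cS]
  have hT : (cT : ℝ) ≠ 0 := by norm_num [cT]
  have hR : (cR : ℝ) ≠ 0 := by norm_num [cR]
  have hrr : (rr : ℝ) ≠ 0 := by exact_mod_cast hr.ne'
  have hA : ∀ i < L + 1, ∑ j : Fin N, fA (J + 1) j * (D.d j.val i : ℝ) = (D.c J i : ℝ) := by
    intro i _
    rw [← sum_d D J i, Int.cast_sum, ← sum_fin_lt N (J + 1) hJ (fun j => (D.d j i : ℝ))]
    refine Finset.sum_congr rfl fun j _ => ?_
    unfold fA
    split_ifs <;> simp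
  have hC : ∀ i < L + 1, ∑ j : Fin N, fC (D.toQ N L).toDat (J + 1) ((rr : ℝ) / (cR : ℝ)) j *
      (D.d j.val i : ℝ) = (D.c J i : ℝ) - (D.e J i : ℝ) / (rr : ℝ) := by
    intro i hi
    rw [← sum_d D J i, ← sum_e D L J i hE hi, Int.cast_sum, Int.cast_sum, Finset.sum_div,
      ← Finset.sum_sub_distrib, ← sum_fin_lt N (J + 1) hJ
        (fun j => (D.d j i : ℝ) - ((nth D.rz j * D.d j i : ℤ) : ℝ) / (rr : ℝ))]
    refine Finset.sum_congr rfl fun j _ => ?_
    unfold fC
    split_ifs with hj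
    · simp only [DatQ.toDat, Dt.toQ]
      push_cast
      field_simp
    · simp
  refine cond_of_chk (D.toQ N L).toDat.t X hX (fun l => nth w l) _ _ _ _ _ _ ?_ ?_ h _ _ _ _
    ?_ ?_ ?_ ?_
  · norm_num [cS, cT]
  · have : (0 : ℤ) < cS * cT := by norm_num [cS, cT]
    exact mul_pos this hr
  · intro i
    rw [al_of D N L _ (fun i => (D.c J i : ℝ)) hA i, Dt.aA, rs_eq]
    push_cast
    rfl
  · intro i
    rw [be_of D N L _ (fun i => (D.c J i : ℝ)) hA i, Dt.bA, Dt.sA, Dt.sA, rs_eq, rs_eq]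
    push_cast
    field_simp
  · intro i
    rw [al_of D N L _ (fun i => (D.c J i : ℝ) - (D.e J i : ℝ) / (rr : ℝ)) hC i, Dt.aA, Dt.aE,
      rs_eq, rs_eq]
    push_cast
    have e : ∑ x ∈ Finset.range i.val, ((D.c J (x + 1) : ℝ) - (D.e J (x + 1) : ℝ) / (rr : ℝ)) *
        (nth D.tz x : ℝ) = ((rr : ℝ) * ∑ x ∈ Finset.range i.val, (D.c J (x + 1) : ℝ) *
          (nth D.tz x : ℝ) - ∑ x ∈ Finset.range i.val, (D.e J (x + 1) : ℝ) *
          (nth D.tz x : ℝ)) / (rr : ℝ) := by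
      rw [Finset.mul_sum, ← Finset.sum_sub_distrib, Finset.sum_div]
      refine Finset.sum_congr rfl fun x _ => ?_
      field_simp
    rw [e, div_div]
    congr 1
    ring
  · intro i
    rw [be_of D N L _ (fun i => (D.c J i : ℝ) - (D.e J i : ℝ) / (rr : ℝ)) hC i, Dt.bA, Dt.bE,
      Dt.sA, Dt.sA, Dt.sE, Dt.sE, rs_eq, rs_eq, rs_eq, rs_eq]
    push_cast
    rw [Finset.sum_sub_distrib, Finset.sum_sub_distrib, ← Finset.sum_div, ← Finset.sum_div]
    field_simp
    ring

/-- the test for the interval `J` -/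
def Dt.chkJ (D : Dt) (X : Sect) (L : ℕ) (wz : List (List ℤ)) (J : ℕ) : Bool :=
  D.chkE L J && (D.chkR X L (row wz (2 * J)) J (nth D.rz J) &&
    D.chkR X L (row wz (2 * J + 1)) J (nth D.rz (J + 1)))

/-- the simple conditions -/
def Dt.chk0 (D : Dt) (N L : ℕ) : Bool :=
  decide (0 < nth D.rz 0) && (decide (0 < nth D.tz 0) && (decide (-(2 * cS) ≤ D.ka) &&
    (decide (D.ka ≤ 2 * cS) && (allN (fun j => decide (nth D.rz j < nth D.rz (j + 1))) N &&
      allN (fun j => decide (nth D.tz j < nth D.tz (j + 1))) (L - 1)))))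

theorem mono_nat (f : ℕ → ℤ) (N : ℕ) (h : ∀ j < N, f j < f (j + 1)) :
    ∀ b ≤ N, ∀ a < b, f a < f b := by
  intro b
  induction b with
  | zero => intro _ a ha; exact absurd ha (Nat.not_lt_zero a)
  | succ b ih =>
    intro hb a ha
    have h1 := h b hb
    rcases Nat.lt_succ_iff_lt_or_eq.1 ha with h2 | rfl
    · exact (ih (Nat.le_of_succ_le hb) a h2).trans h1
    · exact h1

theorem cert_of (D : Dt) (X : Sect) (N L : ℕ) (hL : 0 < L) (wz : List (List ℤ))
    (h0 : D.chk0 N L = true) (hX : Encl (D.toQ N L).toDat.t X)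
    (h : ∀ J < N, D.chkJ X L wz J = true) :
    Cert (D.toQ N L).toDat ((((nth D.rz N : ℚ) / (cR : ℚ) : ℚ)) : ℝ) := by
  unfold Dt.chk0 at h0
  simp only [Bool.and_eq_true, decide_eq_true_eq, allN_iff] at h0
  obtain ⟨r0, t0, k1, k2, rm, tm⟩ := h0
  have hS : (0 : ℝ) < (cS : ℝ) := by norm_num [cS]
  have hT : (0 : ℝ) < (cT : ℝ) := by norm_num [cT]
  have hR : (0 : ℝ) < (cR : ℝ) := by norm_num [cR]
  have hr : ∀ j ≤ N, 0 < nth D.rz j := by
    intro j hj
    rcases Nat.eq_zero_or_pos j with rfl | hj0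
    · exact r0
    · exact r0.trans (mono_nat _ N rm j hj 0 hj0)
  have ht : ∀ i < L, 0 < nth D.tz i := by
    intro i hi
    rcases Nat.eq_zero_or_pos i with rfl | hi0
    · exact t0
    · exact t0.trans (mono_nat _ (L - 1) tm i (by omega) 0 hi0)
  have eρ : ∀ j : Fin N, (D.toQ N L).toDat.ρ j = (nth D.rz j.val : ℝ) / (cR : ℝ) := by
    intro j
    simp only [DatQ.toDat, Dt.toQ]
    push_cast
    rfl
  have et : ∀ j : Fin L, (D.toQ N L).toDat.t j = (nth D.tz j.val : ℝ) / (cT : ℝ) := by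
    intro j
    simp only [DatQ.toDat, Dt.toQ]
    push_cast
    rfl
  have eR : ((((nth D.rz N : ℚ) / (cR : ℚ) : ℚ)) : ℝ) = (nth D.rz N : ℝ) / (cR : ℝ) := by
    push_cast
    rfl
  have hj : ∀ J < N, D.chkE L J = true := fun J hJ => by
    have := h J hJ
    unfold Dt.chkJ at this
    simp only [Bool.and_eq_true] at this
    exact this.1
  constructor
  · have e : (D.toQ N L).toDat.ka = (D.ka : ℝ) / (cS : ℝ) := by
      simp only [DatQ.toDat, Dt.toQ]
      push_cast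
      rfl
    rw [e, abs_le]
    have k1' : -(2 * (cS : ℝ)) ≤ (D.ka : ℝ) := by exact_mod_cast k1
    have k2' : (D.ka : ℝ) ≤ 2 * (cS : ℝ) := by exact_mod_cast k2
    constructor
    · rw [le_div_iff₀ hS]; linarith
    · rw [div_le_iff₀ hS]; linarith
  · intro j
    rw [eρ j]
    have : (0 : ℝ) < (nth D.rz j.val : ℝ) := by exact_mod_cast hr j.val j.isLt.le
    positivity
  · intro j
    rw [et j]
    have : (0 : ℝ) < (nth D.tz j.val : ℝ) := by exact_mod_cast ht j.val j.isLt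
    positivity
  · intro a b hab
    rw [eρ a, eρ b]
    refine div_lt_div_of_pos_right ?_ hR
    exact_mod_cast mono_nat _ N rm b.val b.isLt.le a.val hab
  · intro a b hab
    rw [et a, et b]
    refine div_lt_div_of_pos_right ?_ hT
    have : b.val ≤ L - 1 := by have := b.isLt; omega
    exact_mod_cast mono_nat _ (L - 1) tm b.val this a.val hab
  · intro j
    rw [eρ j, eR]
    refine div_lt_div_of_pos_right ?_ hR
    exact_mod_cast mono_nat _ N rm N le_rfl j.val j.isLt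
  · intro J
    have h1 := h J.val J.isLt
    unfold Dt.chkJ at h1
    simp only [Bool.and_eq_true] at h1
    have := cond_of_chkR D X N L (row wz (2 * J.val)) J.val (nth D.rz J.val) J.isLt
      (fun j hj' => hj j (hj'.trans_lt J.isLt)) hX h1.2.1
    rw [← eρ J] at this
    exact ⟨_, this⟩
  · intro J r hr1 hr2
    have h1 := h J.val J.isLt
    unfold Dt.chkJ at h1
    simp only [Bool.and_eq_true] at h1
    have := cond_of_chkR D X N L (row wz (2 * J.val + 1)) J.val (nth D.rz (J.val + 1)) J.isLt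
      (fun j hj' => hj j (hj'.trans_lt J.isLt)) hX h1.2.2
    have er : r = (nth D.rz (J.val + 1) : ℝ) / (cR : ℝ) := by
      by_cases hJ : J.val + 1 < N
      · rw [hr1 hJ, eρ ⟨J.val + 1, hJ⟩]
      · have hJ' : J.val + 1 = N := by have := J.isLt; omega
        rw [hr2 hJ', eR, hJ']
    rw [← er] at this
    exact ⟨_, this⟩

end Pool.Agent.U356.FA
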